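import Pool.Agent.RKO.Defs
import Pool.Agent.UNK.Zar

/-!
Project RKO (MP_e2be99_lc), module Sv.  Text: /team-store/rko_h34.md (section 0, the generator).
Definitions in `Pool/Agent/RKO/Defs.lean` (and `UNK/Defs.lean`).  Replace the `sorry`; keep the statements;
helper lemmas private.

PLAN.
* `sv_pf`: products and sums of coordinates.   `sv_add`: split `Fin (K + j)` (`Fin.sum_univ_add`).
* `sv_sparse`: enumerate `S` by `Fin m` (`S.card ≤ m`; unused indices: `c = 0`): for `u₀ ∈ S` at index `j` take `s_j = al u₀`, so `∏ i ∈ erase u, (al u₀ - al i)` is `0` for `u ≠ u₀` and `P ≠ 0` for `u = u₀` (`al` injective); `c_j = z u₀ / P`.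
* `sv_pt`: `pt S a v = v + z` with `z` supported on `S`: `sv_add`, `sv_sparse`.   `sv_mono`: `sv_add` with `sv_sparse` for `S = ∅`, `z = 0`.
* `sv_ev`: `F` a polynomial function, nonzero at `pt S a (sv al K θ)`-type points: see statement; polynomial function of `θ'`: `PF.comp`, `sv_pf`, `PF.ev_ne`.
-/

set_option autoImplicit false

namespace Pool.Agent.RKO

open MvPolynomial
open Pool.Agent.UNK (zar PF dot tp fc Fc)

universe u

section

variable {k : Type u} [Field k] {V : Type} [Fintype V]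

theorem sv_pf (al : V → k) (K : ℕ) (u : V) : PF (fun θ : Fin K ⊕ Fin K → k => sv al K θ u) := by
  unfold sv
  refine PF.sum _ fun j _ => PF.mul (PF.coord _) (PF.prod _ fun i _ => ?_)
  simpa only [sub_eq_add_neg] using
    PF.add (PF.coord (k := k) (Sum.inr j : Fin K ⊕ Fin K)) (PF.const (-al i))

theorem sv_add (al : V → k) (K j : ℕ) (θ : Fin K ⊕ Fin K → k) (θ' : Fin j ⊕ Fin j → k) :
    ∃ θ'' : Fin (K + j) ⊕ Fin (K + j) → k, sv al (K + j) θ'' = sv al K θ + sv al j θ' := by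
  refine ⟨Sum.elim (Fin.append (fun i => θ (Sum.inl i)) (fun i => θ' (Sum.inl i)))
    (Fin.append (fun i => θ (Sum.inr i)) (fun i => θ' (Sum.inr i))), ?_⟩
  funext u
  rw [Pi.add_apply]
  unfold sv
  rw [Fin.sum_univ_add]
  simp only [Sum.elim_inl, Sum.elim_inr, Fin.append_left, Fin.append_right]

private theorem sv_one (al : V → k) (hal : Function.Injective al) (u₀ : V) (c : k) :
    ∃ θ : Fin 1 ⊕ Fin 1 → k, ∀ u, (u = u₀ → sv al 1 θ u = c) ∧ (u ≠ u₀ → sv al 1 θ u = 0) := by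
  classical
  refine ⟨Sum.elim (fun _ => c / ∏ i ∈ Finset.univ.erase u₀, (al u₀ - al i)) (fun _ => al u₀), ?_⟩
  intro u
  unfold sv
  rw [Fin.sum_univ_one, Sum.elim_inl]
  simp only [Sum.elim_inr]
  constructor
  · intro h
    subst h
    have hP : ∏ i ∈ Finset.univ.erase u, (al u - al i) ≠ 0 := by
      refine Finset.prod_ne_zero_iff.2 fun i hi => ?_
      rw [sub_ne_zero]
      exact fun h' => (Finset.mem_erase.1 hi).1 (hal h').symm
    convert div_mul_cancel₀ c hP
  · intro h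
    refine mul_eq_zero_of_right _ (Finset.prod_eq_zero (i := u₀) ?_ (sub_self _))
    exact Finset.mem_erase.2 ⟨fun h' => h h'.symm, Finset.mem_univ _⟩

theorem sv_sparse (al : V → k) (hal : Function.Injective al) (m : ℕ) (S : Finset V)
    (hS : S.card ≤ m) (z : V → k) (hz : ∀ u, u ∉ S → z u = 0) :
    ∃ θ : Fin m ⊕ Fin m → k, sv al m θ = z := by
  classical
  induction m generalizing S z with
  | zero =>
    refine ⟨fun _ => 0, ?_⟩
    have hS0 : S = ∅ := Finset.card_eq_zero.1 (Nat.le_zero.1 hS)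
    funext u
    rw [hz u (by rw [hS0]; exact Finset.notMem_empty u)]
    unfold sv
    rw [Fin.sum_univ_zero]
  | succ m ih =>
    by_cases hS0 : S = ∅
    · refine ⟨fun _ => 0, ?_⟩
      funext u
      rw [hz u (by rw [hS0]; exact Finset.notMem_empty u)]
      unfold sv
      exact Finset.sum_eq_zero fun j _ => zero_mul _
    · obtain ⟨u₀, hu₀⟩ := Finset.nonempty_iff_ne_empty.2 hS0
      have hc : (S.erase u₀).card ≤ m := by
        rw [Finset.card_erase_of_mem hu₀]
        omega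
      obtain ⟨θ₁, h₁⟩ := ih (S.erase u₀) hc (fun u => if u = u₀ then 0 else z u) (by
        intro u hu
        by_cases h : u = u₀
        · rw [if_pos h]
        · rw [if_neg h]
          exact hz u fun h' => hu (Finset.mem_erase.2 ⟨h, h'⟩))
      obtain ⟨θ₂, h₂⟩ := sv_one al hal u₀ (z u₀)
      obtain ⟨θ₃, h₃⟩ := sv_add al m 1 θ₁ θ₂
      refine ⟨θ₃, ?_⟩
      rw [h₃, h₁]
      funext u
      rw [Pi.add_apply]
      by_cases h : u = u₀
      · rw [(h₂ u).1 h, if_pos h, zero_add, h]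
      · rw [(h₂ u).2 h, if_neg h, add_zero]

theorem sv_pt (al : V → k) (hal : Function.Injective al) (K m : ℕ) (θ : Fin K ⊕ Fin K → k)
    (S : Finset V) (hS : S.card ≤ m) (a : V → k) :
    ∃ θ' : Fin (K + m) ⊕ Fin (K + m) → k, sv al (K + m) θ' = pt S a (sv al K θ) := by
  classical
  obtain ⟨θ₁, h₁⟩ := sv_sparse al hal m S hS (fun u => if u ∈ S then a u - sv al K θ u else 0)
    (fun u hu => if_neg hu)
  obtain ⟨θ₂, h₂⟩ := sv_add al K m θ θ₁
  refine ⟨θ₂, ?_⟩
  rw [h₂, h₁]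
  funext u
  rw [Pi.add_apply]
  unfold pt
  by_cases h : u ∈ S
  · rw [if_pos h, if_pos h]
    ring
  · rw [if_neg h, if_neg h, add_zero]

theorem sv_mono (al : V → k) (hal : Function.Injective al) {K K' : ℕ} (h : K ≤ K')
    (θ : Fin K ⊕ Fin K → k) : ∃ θ' : Fin K' ⊕ Fin K' → k, sv al K' θ' = sv al K θ := by
  obtain ⟨j, rfl⟩ := Nat.exists_eq_add_of_le h
  obtain ⟨θ₁, h₁⟩ := sv_sparse al hal j ∅ (by simp) (fun _ => 0) (fun _ _ => rfl)
  obtain ⟨θ₂, h₂⟩ := sv_add al K j θ θ₁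
  refine ⟨θ₂, ?_⟩
  rw [h₂, h₁]
  funext u
  rw [Pi.add_apply, add_zero]

/-- a polynomial function which is nonzero at a point of level `K` is nonzero at generic points of
level `K' ≥ K` -/
theorem sv_ev (al : V → k) (hal : Function.Injective al) {K K' : ℕ} (h : K ≤ K')
    (F : (V → k) → k) (hF : PF F) (θ : Fin K ⊕ Fin K → k) (hθ : F (sv al K θ) ≠ 0) :
    ∀ᶠ θ' in zar k (Fin K' ⊕ Fin K'), F (sv al K' θ') ≠ 0 := by
  have h1 : PF (fun θ' : Fin K' ⊕ Fin K' → k => F (sv al K' θ')) :=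
    PF.comp hF (fun u => sv_pf al K' u)
  refine PF.ev_ne h1 ?_
  obtain ⟨θ₁, h₁⟩ := sv_mono al hal h θ
  exact ⟨θ₁, by rw [h₁]; exact hθ⟩

end

end Pool.Agent.RKO
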