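import Pool.Agent.RKO.Cw
import Pool.Agent.RKO.Sv
import Pool.Agent.UNK.Blk

/-!
Project RKO (MP_e2be99_lc), module Al.  Text: /team-store/rko_h34.md (section 5, induction on the rank).
Definitions in `Pool/Agent/RKO/Defs.lean` (and `UNK/Defs.lean`).  

PLAN.
* `alive_prod`: `Cs` at most 4 words, `Cs.flatten` an infix of `W`, for generic `θ` (level `K`) all of them alive at `sv al K θ`; if `r ≤ rank (wv Cs.flatten a)` then `r ≤ rank (wv Cs.flatten (sv al (K + MM w ρ b) θ'))` for generic `θ'`.
  Proof: `U * wv .. a * W' = 1` (`UNK.fac_ge`), `UNK.det_tp'`: the determinant is `dot φ (tp r ..)`, `r ≤ w`; take one `θ` with all `Cs` alive (`.exists`), `cw` with `v = sv al K θ`: `S`, `a'`; `sv_pt`: a point of level `K + MM`; `sv_ev`; `UNK.ge_of_fac`.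
* `al_step`: for every infix `J` of `W` (finitely many): if `r + 1 ≤ rank (wv J x)` for some `x`: `rank` at generic `θ'` of level `K + MM` is at least the maximal rank (it is at generic `θ` of level `K`: `h`; `UNK.fac_ge`, determinant, `sv_ev`).  Otherwise the maximal rank of `J` is `≤ r`; we may assume it is
  `r` (else nothing to prove).  `UNK.blk` with `P J' := J' = [] ∨ ∃ x, r + 1 ≤ rank (wv J' x)`: `J = Bs.flatten ++ T`, `B = P' ++ [l]`, rank of `B` at most `r` everywhere, `Bs ≠ []`.  For consecutive `B, B'` the product `wv (B ++ B')` has rank at least `r` somewhere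
  (an infix of `J`), `B ++ B'` is the product of the 4 words `P', [l], P'', [l']`, each alive at generic `sv al K θ`: infixes of `P'` have rank `≥ r + 1` somewhere (`Matrix.rank_mul_le`) or `P' = []`; `[l]`: its infixes are `[]` and `[l]`, and `l.f` has its greatest rank at generic
  points of level `K ≥ b` since every point supported on `l.B` is of level `b` (`sv_sparse`, `Letter.dep`, `rank_ev`/`sv_ev`).  Also `B_last ++ T` (3 words).  `alive_prod` for all of them (finitely many), then `chainr` with `Xs = Bs.map (wv · v')`, `Y = wv T v'`.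
* `al_all`: `Ral (w + 1)` holds at every point (rank `≤ w`); induction: `Ral 0` at level `b + (w + 1) * MM w ρ b`.
-/

set_option autoImplicit false

namespace Pool.Agent.RKO

open MvPolynomial
open Pool.Agent.UNK (zar PF dot tp fc Fc)

universe u

section

variable {k : Type u} [Field k] [Infinite k] {V : Type} [Fintype V] {w : ℕ}

private theorem al_blk {α : Type u} (P : List α → Prop) (h0 : P []) (L : List α) :
    ∃ (Bs : List (List α)) (T : List α), L = Bs.flatten ++ T ∧ P T ∧
      ∀ B ∈ Bs, ¬ P B ∧ ∃ P' u, B = P' ++ [u] ∧ P P' := by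
  classical
  induction hn : L.length using Nat.strong_induction_on generalizing L with
  | _ n ih =>
    by_cases hP : P L
    · exact ⟨[], L, by simp, hP, by simp⟩
    · have hex : ∃ k, ¬ P (L.take k) := ⟨L.length, by simpa using hP⟩
      obtain ⟨k, hk1, hkmin⟩ : ∃ k, ¬ P (L.take k) ∧ ∀ j < k, P (L.take j) :=
        ⟨Nat.find hex, Nat.find_spec hex, fun j hj => not_not.mp (Nat.find_min hex hj)⟩
      have hk0 : k ≠ 0 := by
        intro h
        rw [h] at hk1
        exact hk1 (by simpa using h0)
      have hkle : k ≤ L.length := by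
        by_contra hlt
        exact hP (by simpa using hkmin L.length (by omega))
      obtain ⟨j, hj⟩ := Nat.exists_eq_succ_of_ne_zero hk0
      have hjlt : j < L.length := by omega
      have htake : L.take k = L.take j ++ [L[j]] := by
        rw [hj, Nat.succ_eq_add_one, List.take_succ_eq_append_getElem hjlt]
      obtain ⟨Bs, T, h1, h2, h3⟩ := ih (L.drop k).length
        (by rw [List.length_drop]; omega) (L.drop k) rfl
      refine ⟨L.take k :: Bs, T, ?_, h2, ?_⟩
      · rw [List.flatten_cons, List.append_assoc, ← h1, List.take_append_drop]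
      · intro B hB
        rcases List.mem_cons.mp hB with rfl | hB
        · exact ⟨hk1, L.take j, L[j], htake, hkmin j (by omega)⟩
        · exact h3 B hB

private theorem al_rank_infix {J L : List (Letter k V w)} (h : J <:+: L) (x : V → k) :
    (wv L x).rank ≤ (wv J x).rank := by
  obtain ⟨X, Y, rfl⟩ := h
  rw [wv_append, wv_append]
  exact (Matrix.rank_mul_le_left _ _).trans (Matrix.rank_mul_le_right _ _)

private theorem al_reads {J L : List (Letter k V w)} (h : J <:+: L) (u : V) :
    reads J u ≤ reads L u := by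
  classical
  unfold reads
  exact (h.sublist.filter _).length_le

private theorem al_finite_infix {α : Type*} (W : List α) : {J : List α | J <:+: W}.Finite := by
  have h1 : {J : List α | J <:+: W} ⊆ ⋃ t ∈ {t : List α | t ∈ W.tails}, {J : List α | J ∈ t.inits} := by
    intro J hJ
    obtain ⟨t, h1, h2⟩ := List.infix_iff_prefix_suffix.1 hJ
    exact Set.mem_biUnion (show t ∈ {t : List α | t ∈ W.tails} from (List.mem_tails _ _).2 h2)
      ((List.mem_inits _ _).2 h1)
  refine Set.Finite.subset ?_ h1
  apply Set.Finite.biUnion (List.finite_toSet _)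
  intro t _
  exact List.finite_toSet _

private theorem al_exists_max {α : Type*} [Nonempty α] (f : α → ℕ) (N : ℕ) (hf : ∀ x, f x ≤ N) :
    ∃ x₀, ∀ x, f x ≤ f x₀ := by
  have hbdd : BddAbove (Set.range f) := ⟨N, by rintro _ ⟨x, rfl⟩; exact hf x⟩
  obtain ⟨x₀, hx₀⟩ := Nat.sSup_mem (Set.range_nonempty f) hbdd
  refine ⟨x₀, fun x => ?_⟩
  rw [hx₀]
  exact le_csSup hbdd ⟨x, rfl⟩

private theorem al_sv_pf (al : V → k) (K : ℕ) (W : List (Letter k V w)) (p q : Fin w) :
    PF (fun θ : Fin K ⊕ Fin K → k => wv W (sv al K θ) p q) :=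
  Pool.Agent.UNK.PF.comp (wv_pf W p q) (sv_pf al K)

theorem alive_prod (al : V → k) (hal : Function.Injective al) (ρ b K r : ℕ)
    (Cs : List (List (Letter k V w))) (hc : Cs.length ≤ 4) (hr : ∀ u, reads Cs.flatten u ≤ ρ)
    (hB : ∀ l ∈ Cs.flatten, l.B.card ≤ b)
    (halv : ∀ᶠ θ in zar k (Fin K ⊕ Fin K), ∀ C ∈ Cs, Alv C (sv al K θ)) (a : V → k)
    (ha : r ≤ (wv Cs.flatten a).rank) :
    ∀ᶠ θ in zar k (Fin (K + MM w ρ b) ⊕ Fin (K + MM w ρ b)),
      r ≤ (wv Cs.flatten (sv al (K + MM w ρ b) θ)).rank := by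
  have hrw : r ≤ w := ha.trans (Matrix.rank_le_width _)
  obtain ⟨U, W', hUW⟩ := Pool.Agent.UNK.fac_ge ha
  obtain ⟨φ, hφ⟩ := Pool.Agent.UNK.det_tp' r U W'
  have h0 : dot φ (tp r (wv Cs.flatten a)) ≠ 0 := by
    rw [← hφ, hUW, Matrix.det_one]
    exact one_ne_zero
  have hnb : (zar k (Fin K ⊕ Fin K)).NeBot := Pool.Agent.UNK.zar_neBot k _
  obtain ⟨θ, hθ⟩ := halv.exists
  obtain ⟨S, a', hS, hne⟩ := cw ρ b r Cs hc (sv al K θ) a hθ hr hB hrw φ h0
  obtain ⟨θ', hθ'⟩ := sv_pt al hal K (MM w ρ b) θ S hS a'
  have hge : r ≤ (wv Cs.flatten (sv al (K + MM w ρ b) θ')).rank := by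
    rw [hθ']
    apply Pool.Agent.UNK.ge_of_fac (U := U) (W := W')
    rw [hφ]
    exact hne
  exact rank_ev (fun θ => wv Cs.flatten (sv al (K + MM w ρ b) θ)) (al_sv_pf al _ _) r θ' hge

private theorem al_alv (al : V → k) (K r : ℕ) (W : List (Letter k V w))
    (h : ∀ᶠ θ in zar k (Fin K ⊕ Fin K), Ral (r + 1) W (sv al K θ)) (C : List (Letter k V w))
    (hCW : C <:+: W) (hC : C = [] ∨ ∃ x, r + 1 ≤ (wv C x).rank) :
    ∀ᶠ θ in zar k (Fin K ⊕ Fin K), Alv C (sv al K θ) := by
  rcases hC with hC | ⟨x₀, hx₀⟩
  · refine Filter.Eventually.of_forall fun θ J hJ x => ?_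
    subst hC
    rw [List.infix_nil.1 hJ, wv_nil, wv_nil]
  · filter_upwards [h] with θ hθ J hJ x
    exact hθ J (hJ.trans hCW) ⟨x₀, hx₀.trans (al_rank_infix hJ x₀)⟩ x

private theorem al_letter (al : V → k) (hal : Function.Injective al) (b K : ℕ) (hK : b ≤ K)
    (l : Letter k V w) (hl : l.B.card ≤ b) :
    ∀ᶠ θ in zar k (Fin K ⊕ Fin K), Alv [l] (sv al K θ) := by
  classical
  have hone : ∀ x, wv [l] x = l.f x := fun x => by simp [wv]
  obtain ⟨x₀, hx₀⟩ := al_exists_max (fun x : V → k => (wv [l] x).rank) w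
    (fun x => Matrix.rank_le_width _)
  obtain ⟨θ₁, hθ₁⟩ := sv_sparse al hal b l.B hl (fun u => if u ∈ l.B then x₀ u else 0)
    (fun u hu => if_neg hu)
  obtain ⟨θ₂, hθ₂⟩ := sv_mono al hal hK θ₁
  have e : wv [l] (sv al K θ₂) = wv [l] x₀ := by
    rw [hone, hone]
    apply l.dep
    intro u hu
    rw [hθ₂, hθ₁]
    exact if_pos hu
  have h1 : (wv [l] x₀).rank ≤ (wv [l] (sv al K θ₂)).rank := by rw [e]
  have h2 := rank_ev (fun θ => wv [l] (sv al K θ)) (al_sv_pf al _ _) _ θ₂ h1
  filter_upwards [h2] with θ hθ J hJ x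
  have hJ' : J = [] ∨ J = [l] := by
    obtain ⟨X, Y, hXY⟩ := hJ
    cases X with
    | nil =>
      cases J with
      | nil => exact Or.inl rfl
      | cons c J' =>
        right
        simp only [List.nil_append, List.cons_append, List.cons.injEq, List.append_eq_nil_iff] at hXY
        rw [hXY.1, hXY.2.1]
    | cons c X' =>
      left
      simp only [List.cons_append, List.cons.injEq, List.append_eq_nil_iff] at hXY
      exact hXY.2.1.2
  rcases hJ' with rfl | rfl
  · rw [wv_nil, wv_nil]
  · exact (hx₀ x).trans hθ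

theorem al_step (al : V → k) (hal : Function.Injective al) (ρ b K r : ℕ) (hK : b ≤ K)
    (W : List (Letter k V w)) (hr : ∀ u, reads W u ≤ ρ) (hB : ∀ l ∈ W, l.B.card ≤ b)
    (h : ∀ᶠ θ in zar k (Fin K ⊕ Fin K), Ral (r + 1) W (sv al K θ)) :
    ∀ᶠ θ in zar k (Fin (K + MM w ρ b) ⊕ Fin (K + MM w ρ b)),
      Ral r W (sv al (K + MM w ρ b) θ) := by
  have main : ∀ J ∈ {J : List (Letter k V w) | J <:+: W},
      ∀ᶠ θ in zar k (Fin (K + MM w ρ b) ⊕ Fin (K + MM w ρ b)),
        ((∃ x : V → k, r ≤ (wv J x).rank) →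
          ∀ x : V → k, (wv J x).rank ≤ (wv J (sv al (K + MM w ρ b) θ)).rank) := by
    intro J hJ
    have hJW : J <:+: W := hJ
    by_cases hbig : ∃ x, r + 1 ≤ (wv J x).rank
    · -- large rank: already alive at level `K`
      have hnb : (zar k (Fin K ⊕ Fin K)).NeBot := Pool.Agent.UNK.zar_neBot k _
      obtain ⟨θ, hθ⟩ := h.exists
      have h1 := hθ J hJW hbig
      obtain ⟨θ', hθ'⟩ := sv_mono al hal (Nat.le_add_right K (MM w ρ b)) θ
      have h2 : (wv J (sv al K θ)).rank ≤ (wv J (sv al (K + MM w ρ b) θ')).rank := by rw [hθ']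
      have h3 := rank_ev (fun θ => wv J (sv al (K + MM w ρ b) θ)) (al_sv_pf al _ _) _ θ' h2
      filter_upwards [h3] with θ'' hθ'' _ x
      exact (h1 x).trans hθ''
    · have hsmall : ∀ x, (wv J x).rank ≤ r := by
        intro x
        by_contra hx
        exact hbig ⟨x, by omega⟩
      by_cases hex : ∃ x : V → k, r ≤ (wv J x).rank
      swap
      · exact Filter.Eventually.of_forall fun θ hh => absurd hh hex
      obtain ⟨a, ha⟩ := hex
      suffices hsuf : ∀ᶠ θ in zar k (Fin (K + MM w ρ b) ⊕ Fin (K + MM w ρ b)),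
          r ≤ (wv J (sv al (K + MM w ρ b) θ)).rank by
        filter_upwards [hsuf] with θ hθ _ x
        exact (hsmall x).trans hθ
      obtain ⟨Bs, T, hL, hT, hBs⟩ := al_blk (fun J' : List (Letter k V w) => J' = [] ∨
        ∃ x, r + 1 ≤ (wv J' x).rank) (Or.inl rfl) J
      by_cases hne : Bs = []
      · -- `J = T`
        have hJT : J = T := by rw [hL, hne]; simp
        rcases hT with hT | hT
        · have hJn : J = [] := by rw [hJT, hT]
          refine Filter.Eventually.of_forall fun θ => ?_
          rw [hJn, wv_nil] at ha ⊢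
          exact ha
        · rw [← hJT] at hT
          exact absurd hT hbig
      · -- facts on infixes of `J`
        have hreads : ∀ C : List (Letter k V w), C <:+: J → ∀ u, reads C u ≤ ρ :=
          fun C hC u => (al_reads (hC.trans hJW) u).trans (hr u)
        have hcard : ∀ C : List (Letter k V w), C <:+: J → ∀ l ∈ C, l.B.card ≤ b :=
          fun C hC l hl => hB l ((hC.trans hJW).subset hl)
        have hTJ : T <:+: J := ⟨Bs.flatten, [], by rw [hL]; simp⟩
        have hTalv := al_alv al K r W h T (hTJ.trans hJW) hT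
        have hpairs : ∀ A ∈ {A : List (Letter k V w) | A ∈ Bs},
            ∀ B ∈ {B : List (Letter k V w) | B ∈ Bs},
            ∀ᶠ θ in zar k (Fin (K + MM w ρ b) ⊕ Fin (K + MM w ρ b)),
              ((A ++ B) <:+: J → r ≤ (wv (A ++ B) (sv al (K + MM w ρ b) θ)).rank) := by
          intro A hA B hB'
          by_cases hAB : (A ++ B) <:+: J
          swap
          · exact Filter.Eventually.of_forall fun θ hh => absurd hh hAB
          obtain ⟨_, P₁, u₁, hA1, hP₁⟩ := hBs A hA
          obtain ⟨_, P₂, u₂, hB1, hP₂⟩ := hBs B hB'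
          have hflat : [P₁, [u₁], P₂, [u₂]].flatten = A ++ B := by
            rw [hA1, hB1]; simp
          have hAJ : A <:+: J := List.IsInfix.trans ⟨[], B, by simp⟩ hAB
          have hBJ : B <:+: J := List.IsInfix.trans ⟨A, [], by simp⟩ hAB
          have hP₁J : P₁ <:+: J := List.IsInfix.trans ⟨[], [u₁], by rw [hA1]; simp⟩ hAJ
          have hP₂J : P₂ <:+: J := List.IsInfix.trans ⟨[], [u₂], by rw [hB1]; simp⟩ hBJ
          have hu₁ : u₁.B.card ≤ b := hcard A hAJ u₁ (by rw [hA1]; simp)
          have hu₂ : u₂.B.card ≤ b := hcard B hBJ u₂ (by rw [hB1]; simp)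
          have halv : ∀ᶠ θ in zar k (Fin K ⊕ Fin K), ∀ C ∈ [P₁, [u₁], P₂, [u₂]],
              Alv C (sv al K θ) := by
            filter_upwards [al_alv al K r W h P₁ (hP₁J.trans hJW) hP₁,
              al_letter al hal b K hK u₁ hu₁, al_alv al K r W h P₂ (hP₂J.trans hJW) hP₂,
              al_letter al hal b K hK u₂ hu₂] with θ h1 h2 h3 h4 C hC
            simp only [List.mem_cons, List.not_mem_nil, or_false] at hC
            rcases hC with rfl | rfl | rfl | rfl
            · exact h1
            · exact h2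
            · exact h3
            · exact h4
          have hfin := alive_prod al hal ρ b K r [P₁, [u₁], P₂, [u₂]] (by simp)
            (by rw [hflat]; exact hreads _ hAB) (by rw [hflat]; exact hcard _ hAB) halv a
            (by rw [hflat]; exact ha.trans (al_rank_infix hAB a))
          rw [hflat] at hfin
          filter_upwards [hfin] with θ hθ _
          exact hθ
        have hlasts : ∀ A ∈ {A : List (Letter k V w) | A ∈ Bs},
            ∀ᶠ θ in zar k (Fin (K + MM w ρ b) ⊕ Fin (K + MM w ρ b)),
              ((A ++ T) <:+: J → r ≤ (wv (A ++ T) (sv al (K + MM w ρ b) θ)).rank) := by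
          intro A hA
          by_cases hAB : (A ++ T) <:+: J
          swap
          · exact Filter.Eventually.of_forall fun θ hh => absurd hh hAB
          obtain ⟨_, P₁, u₁, hA1, hP₁⟩ := hBs A hA
          have hflat : [P₁, [u₁], T].flatten = A ++ T := by
            rw [hA1]; simp
          have hAJ : A <:+: J := List.IsInfix.trans ⟨[], T, by simp⟩ hAB
          have hP₁J : P₁ <:+: J := List.IsInfix.trans ⟨[], [u₁], by rw [hA1]; simp⟩ hAJ
          have hu₁ : u₁.B.card ≤ b := hcard A hAJ u₁ (by rw [hA1]; simp)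
          have halv : ∀ᶠ θ in zar k (Fin K ⊕ Fin K), ∀ C ∈ [P₁, [u₁], T],
              Alv C (sv al K θ) := by
            filter_upwards [al_alv al K r W h P₁ (hP₁J.trans hJW) hP₁,
              al_letter al hal b K hK u₁ hu₁, hTalv] with θ h1 h2 h3 C hC
            simp only [List.mem_cons, List.not_mem_nil, or_false] at hC
            rcases hC with rfl | rfl | rfl
            · exact h1
            · exact h2
            · exact h3
          have hfin := alive_prod al hal ρ b K r [P₁, [u₁], T] (by simp)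
            (by rw [hflat]; exact hreads _ hAB) (by rw [hflat]; exact hcard _ hAB) halv a
            (by rw [hflat]; exact ha.trans (al_rank_infix hAB a))
          rw [hflat] at hfin
          filter_upwards [hfin] with θ hθ _
          exact hθ
        have hfinBs : {A : List (Letter k V w) | A ∈ Bs}.Finite := List.finite_toSet Bs
        have E1 := (Filter.eventually_all_finite hfinBs).2 fun A hA =>
          (Filter.eventually_all_finite hfinBs).2 fun B hB' => hpairs A hA B hB'
        have E2 := (Filter.eventually_all_finite hfinBs).2 hlasts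
        filter_upwards [E1, E2] with θ e1 e2
        have hprod : wv J (sv al (K + MM w ρ b) θ) =
            (Bs.map fun B => wv B (sv al (K + MM w ρ b) θ)).prod *
              wv T (sv al (K + MM w ρ b) θ) := by
          rw [hL, wv_append, wv_flatten]
        rw [hprod]
        apply chainr
        · intro hh
          exact hne (List.map_eq_nil_iff.1 hh)
        · intro X hX
          obtain ⟨B, hBm, rfl⟩ := List.mem_map.1 hX
          have hnP := (hBs B hBm).1
          by_contra hcon
          exact hnP (Or.inr ⟨sv al (K + MM w ρ b) θ, Nat.succ_le_of_lt (not_le.1 hcon)⟩)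
        · intro P A B S hXs
          obtain ⟨P0, R0, hBs0, _, hR0⟩ := List.map_eq_append_iff.1 hXs
          obtain ⟨A0, R1, hR0', hA0, hR1⟩ := List.map_eq_cons_iff.1 hR0
          obtain ⟨B0, R2, hR1', hB0, _⟩ := List.map_eq_cons_iff.1 hR1
          have hinf : (A0 ++ B0) <:+: J := by
            refine ⟨P0.flatten, R2.flatten ++ T, ?_⟩
            rw [hL, hBs0, hR0', hR1']
            simp
          have := e1 A0 (by rw [hBs0, hR0']; simp) B0 (by rw [hBs0, hR0', hR1']; simp) hinf
          rw [wv_append, hA0, hB0] at this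
          exact this
        · intro P A hXs
          obtain ⟨P0, R0, hBs0, _, hR0⟩ := List.map_eq_append_iff.1 hXs
          obtain ⟨A0, R1, hR0', hA0, hR1⟩ := List.map_eq_cons_iff.1 hR0
          have hR1' : R1 = [] := List.map_eq_nil_iff.1 hR1
          have hinf : (A0 ++ T) <:+: J := by
            refine ⟨P0.flatten, [], ?_⟩
            rw [hL, hBs0, hR0', hR1']
            simp
          have := e2 A0 (by rw [hBs0, hR0']; simp) hinf
          rw [wv_append, hA0] at this
          exact this
  have hall := (Filter.eventually_all_finite (al_finite_infix W)).2 main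
  filter_upwards [hall] with θ hθ J hJ
  exact hθ J hJ

theorem al_all (al : V → k) (hal : Function.Injective al) (ρ b : ℕ)
    (W : List (Letter k V w)) (hr : ∀ u, reads W u ≤ ρ) (hB : ∀ l ∈ W, l.B.card ≤ b) :
    ∀ᶠ θ in zar k (Fin (b + (w + 1) * MM w ρ b) ⊕ Fin (b + (w + 1) * MM w ρ b)),
      Ral 0 W (sv al (b + (w + 1) * MM w ρ b) θ) := by
  have key : ∀ i : ℕ, i ≤ w + 1 →
      ∀ᶠ θ in zar k (Fin (b + i * MM w ρ b) ⊕ Fin (b + i * MM w ρ b)),
        Ral (w + 1 - i) W (sv al (b + i * MM w ρ b) θ) := by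
    intro i
    induction i with
    | zero =>
      intro _
      refine Filter.Eventually.of_forall fun θ J _ hx => ?_
      obtain ⟨x, hx⟩ := hx
      have := Matrix.rank_le_width (wv J x)
      omega
    | succ i ih =>
      intro hi
      have e : b + (i + 1) * MM w ρ b = b + i * MM w ρ b + MM w ρ b := by ring
      rw [e]
      apply al_step al hal ρ b (b + i * MM w ρ b) (w + 1 - (i + 1)) (Nat.le_add_right _ _) W hr hB
      have e2 : w + 1 - (i + 1) + 1 = w + 1 - i := by omega
      rw [e2]
      exact ih (by omega)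
  have := key (w + 1) (le_refl _)
  rwa [Nat.sub_self] at this

end

end Pool.Agent.RKO
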