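import Pool.Agent.RKO.Defs
import Pool.Agent.UNK.Tp
import Pool.Agent.UNK.Zar

/-!
Project RKO (MP_e2be99_lc), module Rk.  Text: /team-store/rko_h34.md (section 1, ranks).
Definitions in `Pool/Agent/RKO/Defs.lean` (and `UNK/Defs.lean`).  Replace the `sorry`; keep the statements;
helper lemmas private.

PLAN.
* `rank_ev`: `UNK.fac_ge` at the point `a₀`: `U * X a₀ * W = 1`; the determinant of `U * X a * W` is a polynomial function of `a` (`PF.det`, entries: `PF.mmul`, constants), nonzero at `a₀`, so nonzero for generic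
  `a` (`PF.ev_ne`); `UNK.ge_of_fac`.
* `frob`: Frobenius: `rank (A*B) + rank (B*C) ≤ rank B + rank (A*B*C)`.  With `B = C' * R'` through `Fin (rank B)` (`UNK.fac_le`): `rank (A*B) = rank (A*C')` (`≤` enough and `R'` onto..) or, simpler, by linear maps:
  `dim (ker A ∩ range B) ≥ dim (ker A ∩ range (B*C))`, `rank (A*B) = rank B - dim (ker A ∩ range B)`, `rank (A*B*C) = rank (B*C) - dim (ker A ∩ range (B*C))`.
* `chainr`: induction on `Xs` (for all `X`).  `Xs = []`: hypothesis `hlast` with `P = []`.  `Xs = X' :: Xs'`: by induction `r ≤ rank (X' * .. * Y)`; `frob` with `A = X`, `B = X'`, `C` = the rest: `r ≤ rank (X * X')` (`hpair`), `rank X' ≤ r`.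
-/

set_option autoImplicit false

namespace Pool.Agent.RKO

open MvPolynomial
open Pool.Agent.UNK (zar PF dot tp fc Fc)

universe u

section

variable {k : Type u} [Field k] {I : Type} [Fintype I] [DecidableEq I]

theorem rank_ev {σ : Type} (X : (σ → k) → Matrix I I k) (hX : ∀ p q, PF (fun a => X a p q)) (r : ℕ)
    (a₀ : σ → k) (h : r ≤ (X a₀).rank) : ∀ᶠ a in zar k σ, r ≤ (X a).rank := by
  obtain ⟨U, W, hUW⟩ := UNK.fac_ge h
  have hpf : PF (fun a : σ → k => (U * X a * W).det) := by
    refine PF.det (M := fun a : σ → k => U * X a * W) fun p q => ?_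
    refine PF.mmul (M := fun a : σ → k => U * X a) (N := fun _ => W) (fun p q => ?_)
      (fun p q => PF.const _) p q
    exact PF.mmul (M := fun _ : σ → k => U) (N := X) (fun p q => PF.const _) hX p q
  have h1 : ∀ᶠ a in zar k σ, (U * X a * W).det ≠ 0 := by
    refine PF.ev_ne hpf ⟨a₀, ?_⟩
    rw [hUW, Matrix.det_one]
    exact one_ne_zero
  filter_upwards [h1] with a ha
  exact UNK.ge_of_fac ha

private theorem rk_map {E F : Type u} [AddCommGroup E] [Module k E] [FiniteDimensional k E] [AddCommGroup F]
    [Module k F] (f : E →ₗ[k] F) (p : Submodule k E) :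
    Module.finrank k (p.map f) + Module.finrank k (p ⊓ LinearMap.ker f : Submodule k E) =
      Module.finrank k p := by
  have h := LinearMap.finrank_range_add_finrank_ker (f.domRestrict p)
  rw [LinearMap.range_domRestrict] at h
  have h1 : LinearMap.ker (f.domRestrict p) = (LinearMap.ker f).comap p.subtype := rfl
  have h2 := Submodule.finrank_map_subtype_eq p ((LinearMap.ker f).comap p.subtype)
  rw [Submodule.map_comap_subtype] at h2
  rw [h1, ← h2] at h
  exact h

theorem frob (A B C : Matrix I I k) :
    (A * B).rank + (B * C).rank ≤ B.rank + (A * B * C).rank := by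
  have e1 := rk_map A.mulVecLin (LinearMap.range B.mulVecLin)
  have e2 := rk_map A.mulVecLin (LinearMap.range (B * C).mulVecLin)
  rw [← LinearMap.range_comp, ← Matrix.mulVecLin_mul] at e1 e2
  have h1 : LinearMap.range (B * C).mulVecLin ≤ LinearMap.range B.mulVecLin := by
    rw [Matrix.mulVecLin_mul]
    exact LinearMap.range_comp_le_range _ _
  have h2 := Submodule.finrank_mono (R := k) (inf_le_inf_right (LinearMap.ker A.mulVecLin) h1)
  rw [Matrix.mul_assoc]
  unfold Matrix.rank
  omega

theorem chainr (r : ℕ) (Y : Matrix I I k) (Xs : List (Matrix I I k)) (hne : Xs ≠ [])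
    (hle : ∀ X ∈ Xs, X.rank ≤ r)
    (hpair : ∀ P A B S, Xs = P ++ A :: B :: S → r ≤ (A * B).rank)
    (hlast : ∀ P A, Xs = P ++ [A] → r ≤ (A * Y).rank) : r ≤ (Xs.prod * Y).rank := by
  induction Xs with
  | nil => exact absurd rfl hne
  | cons X Xs ih =>
    rcases Xs with _ | ⟨X', Xs⟩
    · have h1 := hlast [] X rfl
      rwa [List.prod_singleton]
    · have h1 := ih (List.cons_ne_nil _ _) (fun Z hZ => hle Z (List.mem_cons_of_mem _ hZ))
        (fun P A B S hS => hpair (X :: P) A B S (by rw [hS]; rfl))
        (fun P A hA => hlast (X :: P) A (by rw [hA]; rfl))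
      have h2 := hpair [] X X' Xs rfl
      have h3 := hle X' (List.mem_cons_of_mem _ List.mem_cons_self)
      have h4 := frob X X' (Xs.prod * Y)
      have h5 : (X :: X' :: Xs).prod * Y = X * X' * (Xs.prod * Y) := by
        rw [List.prod_cons, List.prod_cons]
        simp only [Matrix.mul_assoc]
      have h6 : (X' :: Xs).prod * Y = X' * (Xs.prod * Y) := by
        rw [List.prod_cons, Matrix.mul_assoc]
      rw [h6] at h1
      rw [h5]
      omega

end

end Pool.Agent.RKO
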