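import Pool.Agent.RKO.Defs

/-!
Project RKO (MP_e2be99_lc), module Es: the theorem of Erdos and Szekeres for lists.

Every element `x` of `tt` gets the pair (length of a longest increasing sublist starting in `x`,
length of a longest decreasing sublist starting in `x`), with respect to the positions in `ss`;
different elements get different pairs.
-/

set_option autoImplicit false

namespace Pool.Agent.RKO

open MvPolynomial
open Pool.Agent.UNK (zar PF dot tp fc Fc)

universe u

open Classical in
/-- a list on which the positions in `ss` increase is a sublist of `ss` -/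
private theorem es_sub {α : Type} (ss : List α) : ∀ rr : List α, (∀ x ∈ rr, x ∈ ss) →
    rr.Pairwise (fun a b => ss.idxOf a < ss.idxOf b) → List.Sublist rr ss := by
  induction ss with
  | nil =>
    intro rr h _
    have : rr = [] := List.eq_nil_iff_forall_not_mem.mpr fun x hx => by
      have := h x hx
      simp at this
    rw [this]
  | cons s ss ih =>
    have key : ∀ rr : List α, (∀ x ∈ rr, x ∈ s :: ss) → (∀ x ∈ rr, x ≠ s) →
        rr.Pairwise (fun a b => (s :: ss).idxOf a < (s :: ss).idxOf b) → List.Sublist rr ss := by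
      intro rr h hne hp
      refine ih rr (fun x hx => ?_) ?_
      · rcases List.mem_cons.mp (h x hx) with h1 | h1
        · exact absurd h1 (hne x hx)
        · exact h1
      · refine hp.imp_of_mem fun {a b} ha hb hab => ?_
        have h1 := hne a ha
        have h2 := hne b hb
        rw [List.idxOf_cons_ne _ h1.symm, List.idxOf_cons_ne _ h2.symm] at hab
        omega
    intro rr h hp
    cases rr with
    | nil => exact List.nil_sublist _
    | cons r rr =>
      rw [List.pairwise_cons] at hp
      have hgt : ∀ b ∈ rr, b ≠ s := by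
        intro b hb hbs
        have h1 := hp.1 b hb
        rw [hbs, List.idxOf_cons_self] at h1
        omega
      by_cases hrs : r = s
      · subst hrs
        exact List.Sublist.cons_cons _
          (key rr (fun x hx => h x (List.mem_cons_of_mem _ hx)) hgt hp.2)
      · refine (key (r :: rr) h ?_ (List.pairwise_cons.mpr hp)).cons s
        intro x hx
        rcases List.mem_cons.mp hx with h1 | h1
        · rw [h1]
          exact hrs
        · exact hgt x h1

/-- greatest value on a finite list of the elements with a property -/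
private theorem es_max {α : Type} (l : List α) (P : α → Prop) (A : α → ℕ) :
    ∃ m, (∀ y ∈ l, P y → A y ≤ m) ∧ (m = 0 ∨ ∃ y ∈ l, P y ∧ A y = m) := by
  classical
  induction l with
  | nil => exact ⟨0, by simp, Or.inl rfl⟩
  | cons x l ih =>
    obtain ⟨m, h1, h2⟩ := ih
    by_cases hx : P x ∧ m < A x
    · refine ⟨A x, ?_, Or.inr ⟨x, List.mem_cons_self, hx.1, rfl⟩⟩
      intro y hy hP
      rcases List.mem_cons.mp hy with h3 | h3
      · rw [h3]
      · exact (h1 y h3 hP).trans hx.2.le
    · refine ⟨m, ?_, ?_⟩
      · intro y hy hP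
        rcases List.mem_cons.mp hy with h3 | h3
        · subst h3
          by_contra hc
          exact hx ⟨hP, not_le.mp hc⟩
        · exact h1 y h3 hP
      · rcases h2 with h2 | ⟨y, hy, hP, hA⟩
        · exact Or.inl h2
        · exact Or.inr ⟨y, List.mem_cons_of_mem _ hy, hP, hA⟩

/-- one labelling: `R` a transitive relation -/
private theorem es_lab {α : Type} (R : α → α → Prop) (hR : ∀ a b c, R a b → R b c → R a c)
    (l : List α) (hl : l.Nodup) : ∃ A : α → ℕ,
      (∀ x ∈ l, 1 ≤ A x ∧ ∃ rr : List α, List.Sublist (x :: rr) l ∧ (x :: rr).Pairwise R ∧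
        (x :: rr).length = A x) ∧
      l.Pairwise (fun x y => R x y → A y < A x) := by
  classical
  induction l with
  | nil => exact ⟨fun _ => 0, by simp, List.Pairwise.nil⟩
  | cons x l ih =>
    rw [List.nodup_cons] at hl
    obtain ⟨A, hA, hp⟩ := ih hl.2
    obtain ⟨m, h1, h2⟩ := es_max l (fun y => R x y) A
    refine ⟨fun z => if z = x then m + 1 else A z, ?_, ?_⟩
    · intro z hz
      show 1 ≤ (if z = x then m + 1 else A z) ∧ ∃ rr : List α, List.Sublist (z :: rr) (x :: l) ∧
        (z :: rr).Pairwise R ∧ (z :: rr).length = if z = x then m + 1 else A z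
      by_cases hzx : z = x
      · subst hzx
        rw [if_pos rfl]
        refine ⟨by omega, ?_⟩
        rcases h2 with h2 | ⟨y, hy, hRy, hAy⟩
        · exact ⟨[], by simp, by simp, by simp [h2]⟩
        · obtain ⟨-, rr, hs, hpr, hlen⟩ := hA y hy
          refine ⟨y :: rr, List.Sublist.cons_cons _ hs, ?_, ?_⟩
          · rw [List.pairwise_cons]
            refine ⟨?_, hpr⟩
            intro b hb
            rcases List.mem_cons.mp hb with h3 | h3
            · rw [h3]
              exact hRy
            · exact hR _ _ _ hRy ((List.pairwise_cons.mp hpr).1 b h3)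
          · rw [List.length_cons, hlen, hAy]
      · rw [if_neg hzx]
        have hzl : z ∈ l := by
          rcases List.mem_cons.mp hz with h3 | h3
          · exact absurd h3 hzx
          · exact h3
        obtain ⟨h3, rr, hs, hpr, hlen⟩ := hA z hzl
        exact ⟨h3, rr, hs.cons x, hpr, hlen⟩
    · rw [List.pairwise_cons]
      constructor
      · intro y hy hRy
        have hyx : y ≠ x := fun h => hl.1 (h ▸ hy)
        show (if y = x then m + 1 else A y) < if x = x then m + 1 else A x
        rw [if_neg hyx, if_pos rfl]
        have := h1 y hy hRy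
        omega
      · refine hp.imp_of_mem fun {a b} ha hb hab => ?_
        have hax : a ≠ x := fun h => hl.1 (h ▸ ha)
        have hbx : b ≠ x := fun h => hl.1 (h ▸ hb)
        show R a b → (if b = x then m + 1 else A b) < if a = x then m + 1 else A a
        rw [if_neg hax, if_neg hbx]
        exact hab

theorem es {α : Type} (q : ℕ) (ss tt : List α) (hs : ss.Nodup) (ht : tt.Nodup)
    (h : ∀ x ∈ tt, x ∈ ss) (hl : q * q ≤ tt.length) :
    ∃ rr : List α, List.Sublist rr tt ∧ q ≤ rr.length ∧
      (List.Sublist rr ss ∨ List.Sublist rr.reverse ss) := by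
  classical
  by_contra hcon
  push Not at hcon
  obtain ⟨A, hA, hpA⟩ := es_lab (fun a b => ss.idxOf a < ss.idxOf b)
    (fun a b c h1 h2 => h1.trans h2) tt ht
  obtain ⟨B, hB, hpB⟩ := es_lab (fun a b => ss.idxOf b < ss.idxOf a)
    (fun a b c h1 h2 => h2.trans h1) tt ht
  have hAq : ∀ x ∈ tt, 1 ≤ A x ∧ A x < q := by
    intro x hx
    obtain ⟨h1, rr, hsub, hpr, hlen⟩ := hA x hx
    refine ⟨h1, ?_⟩
    by_contra hc
    refine (hcon (x :: rr) hsub (by omega)).1 (es_sub ss _ ?_ hpr)
    intro y hy
    exact h y (hsub.subset hy)
  have hBq : ∀ x ∈ tt, 1 ≤ B x ∧ B x < q := by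
    intro x hx
    obtain ⟨h1, rr, hsub, hpr, hlen⟩ := hB x hx
    refine ⟨h1, ?_⟩
    by_contra hc
    refine (hcon (x :: rr) hsub (by omega)).2 (es_sub ss _ ?_ ?_)
    · intro y hy
      exact h y (hsub.subset (List.mem_reverse.mp hy))
    · rw [List.pairwise_reverse]
      exact hpr
  -- the pairs are different
  have hnd : (tt.map fun x => (A x, B x)).Nodup := by
    rw [List.Nodup, List.pairwise_map]
    have hboth := (hpA.and hpB).and ht
    refine hboth.imp_of_mem fun {a b} ha hb hab => ?_
    obtain ⟨⟨h1, h2⟩, h3⟩ := hab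
    intro heq
    have e1 : A a = A b := congrArg Prod.fst heq
    have e2 : B a = B b := congrArg Prod.snd heq
    rcases lt_trichotomy (ss.idxOf a) (ss.idxOf b) with h4 | h4 | h4
    · have := h1 h4
      omega
    · exact h3 (List.idxOf_inj (h a ha) |>.mp h4)
    · have := h2 h4
      omega
  have hcard : tt.length ≤ (q - 1) * (q - 1) := by
    have h1 : (tt.map fun x => (A x, B x)).toFinset ⊆ Finset.Icc 1 (q - 1) ×ˢ Finset.Icc 1 (q - 1) := by
      intro z hz
      rw [List.mem_toFinset, List.mem_map] at hz
      obtain ⟨x, hx, rfl⟩ := hz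
      have h2 := hAq x hx
      have h3 := hBq x hx
      rw [Finset.mem_product, Finset.mem_Icc, Finset.mem_Icc]
      exact ⟨⟨h2.1, by omega⟩, ⟨h3.1, by omega⟩⟩
    have h2 := Finset.card_le_card h1
    rw [List.toFinset_card_of_nodup hnd, List.length_map, Finset.card_product, Nat.card_Icc] at h2
    simpa using h2
  rcases Nat.eq_zero_or_pos q with hq | hq
  · exact (hcon [] (List.nil_sublist _) (by simp [hq])).1 (List.nil_sublist _)
  · obtain ⟨p, rfl⟩ : ∃ p, q = p + 1 := ⟨q - 1, by omega⟩
    rw [Nat.add_sub_cancel] at hcard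
    nlinarith

end Pool.Agent.RKO
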