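import Pool.Agent.RKO.Wa
import Pool.Agent.RKO.Es

/-!
Project RKO (MP_e2be99_lc), module Wb.  Text: /team-store/rko_h34.md (section 2, monotone passes).
Definitions in `Pool/Agent/RKO/Defs.lean` (and `UNK/Defs.lean`).  Replace the `sorry`; keep the statements;
helper lemmas private.

PLAN.
Pure lists.  Induction on `κ` (for all `q`, `X`, `S`).  `κ = 0`: no element of `S` occurs: `ss = S`, `Qs = [X]`.
Step `κ + 1`: `wr_in` with `q₁ = GW κ (GW κ (q * q))`, `d = q` (`q ≤ 2 ^ q`).  Second alternative: `Qs = [X]`.  First alternative: every `s ∈ SA` has at most `κ` letters in `U` and at most `κ` in `V` (at most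
`κ + 1` in `X`, at least one in the other part).  Induction hypothesis for `U`, `SA` and `GW κ (q * q)`: `ss₁`, `QU`.  Induction hypothesis for `V`, `ss₁` and `q * q`: `tt`, `QV`.  `es q ss₁ tt`: `rr`.  `Srt occ ss Q` is
inherited by sublists of `ss`; if `rr.reverse` is a sublist of `ss₁` then `rr` is one of `ss₁.reverse`.  `ss := rr`, `Qs = [X₁] ++ QU ++ QV ++ [X₂]` (no element of `rr` occurs in `X₁`, `X₂`), at most
`2 * FW κ + 2` lists.
-/

set_option autoImplicit false

namespace Pool.Agent.RKO

open MvPolynomial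
open Pool.Agent.UNK (zar PF dot tp fc Fc)

universe u

private theorem wb_srt_sub {α β : Type} (occ : β → α → Prop) {ss rr : List α} {Q : List β}
    (h : Srt occ ss Q) (hr : List.Sublist rr ss) : Srt occ rr Q := by
  unfold Srt at h ⊢
  refine h.imp ?_
  intro l l' hll s s' h1 h2 h3
  exact hll s s' h1 h2 (h3.trans hr)

private theorem wb_srt_none {α β : Type} (occ : β → α → Prop) {ss : List α} {Q : List β}
    (h : ∀ s ∈ ss, ∀ l ∈ Q, ¬ occ l s) : Srt occ ss Q := by
  unfold Srt
  rw [List.pairwise_iff_forall_sublist]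
  intro l l' hll s s' h1 h2 h3
  have hl : l ∈ Q := hll.subset (by simp)
  have hs : s ∈ ss := h3.subset (by simp)
  exact h s hs l hl h1

private theorem wb_flip {α β : Type} (occ : β → α → Prop) {ss rr : List α} {Q : List β}
    (h : Srt occ ss Q ∨ Srt occ ss.reverse Q)
    (hr : List.Sublist rr ss ∨ List.Sublist rr.reverse ss) :
    Srt occ rr Q ∨ Srt occ rr.reverse Q := by
  rcases hr with hr | hr
  · rcases h with h | h
    · exact Or.inl (wb_srt_sub occ h hr)
    · exact Or.inr (wb_srt_sub occ h (List.reverse_sublist.mpr hr))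
  · rcases h with h | h
    · exact Or.inr (wb_srt_sub occ h hr)
    · refine Or.inl (wb_srt_sub occ h ?_)
      have h2 := List.reverse_sublist.mpr hr
      rwa [List.reverse_reverse] at h2

open scoped Classical in
theorem wr {α β : Type} (occ : β → α → Prop) (κ q : ℕ) (X : List β) (S : List α)
    (hS : S.Nodup) (hcount : ∀ s ∈ S, (X.filter (fun l => occ l s)).length ≤ κ)
    (hind : ∀ l ∈ X, ∀ s ∈ S, ∀ s' ∈ S, occ l s → occ l s' → s = s')
    (hlen : GW κ q ≤ S.length) :
    ∃ ss : List α, ss.Nodup ∧ (∀ s ∈ ss, s ∈ S) ∧ q ≤ ss.length ∧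
      ∃ Qs : List (List β), Qs.flatten = X ∧ Qs.length ≤ FW κ ∧
        ∀ Q ∈ Qs, Srt occ ss Q ∨ Srt occ ss.reverse Q := by
  induction κ generalizing q X S with
  | zero =>
    refine ⟨S, hS, fun s hs => hs, hlen, [X], by simp, by simp [FW], ?_⟩
    intro Q hQ
    rw [List.mem_singleton] at hQ
    subst hQ
    refine Or.inl (wb_srt_none occ ?_)
    intro s hs l hl hocc
    have h1 := hcount s hs
    have h2 : Q.filter (fun l => occ l s) = [] := List.eq_nil_of_length_eq_zero (by omega)
    have h3 : l ∈ Q.filter (fun l => occ l s) := List.mem_filter.mpr ⟨hl, by simpa using hocc⟩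
    rw [h2] at h3
    simp at h3
  | succ κ ih =>
    rcases wr_in occ (GW κ (GW κ (q * q))) q X S hS hind hlen with
      ⟨X₁, U, V, X₂, SA, hX, hSA, hsub, hq, hAll⟩ | ⟨ss, hss, hsub, hq, hsrt⟩
    · have hcX : ∀ s ∈ SA, (U.filter (fun l => occ l s)).length
          + (V.filter (fun l => occ l s)).length ≤ κ + 1 := by
        intro s hs
        have h1 := hcount s (hsub s hs)
        rw [hX] at h1
        simp only [List.filter_append, List.length_append] at h1
        omega
      have hpos : ∀ (W : List β) (s : α), (∃ l ∈ W, occ l s) →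
          1 ≤ (W.filter (fun l => occ l s)).length := by
        rintro W s ⟨l, hl, hocc⟩
        have h3 : l ∈ W.filter (fun l => occ l s) := List.mem_filter.mpr ⟨hl, by simpa using hocc⟩
        exact List.length_pos_of_mem h3
      have hUX : ∀ l ∈ U, l ∈ X := by
        intro l hl
        rw [hX]
        simp [hl]
      have hVX : ∀ l ∈ V, l ∈ X := by
        intro l hl
        rw [hX]
        simp [hl]
      obtain ⟨ss₁, hss₁, hsub₁, hq₁, QU, hQU, hQUl, hQUs⟩ := ih (GW κ (q * q)) U SA hSA
        (fun s hs => by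
          have h1 := hcX s hs
          have h2 := hpos V s (hAll s hs).2.2.2
          omega)
        (fun l hl s hs s' hs' h1 h2 => hind l (hUX l hl) s (hsub s hs) s' (hsub s' hs') h1 h2)
        hq
      obtain ⟨tt, htt, hsub₂, hq₂, QV, hQV, hQVl, hQVs⟩ := ih (q * q) V ss₁ hss₁
        (fun s hs => by
          have h1 := hcX s (hsub₁ s hs)
          have h2 := hpos U s (hAll s (hsub₁ s hs)).2.2.1
          omega)
        (fun l hl s hs s' hs' h1 h2 => hind l (hVX l hl) s (hsub s (hsub₁ s hs)) s'
          (hsub s' (hsub₁ s' hs')) h1 h2)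
        hq₁
      obtain ⟨rr, hrt, hqr, hrs⟩ := es q ss₁ tt hss₁ htt hsub₂ hq₂
      have hrSA : ∀ s ∈ rr, s ∈ SA := fun s hs => hsub₁ s (hsub₂ s (hrt.subset hs))
      refine ⟨rr, hrt.nodup htt, fun s hs => hsub s (hrSA s hs), hqr,
        [X₁] ++ QU ++ QV ++ [X₂], ?_, ?_, ?_⟩
      · rw [hX]
        simp [List.flatten_append, hQU, hQV]
      · simp only [List.length_append, List.length_singleton, FW]
        omega
      · intro Q hQ
        simp only [List.mem_append, List.mem_singleton] at hQ
        rcases hQ with ((hQ | hQ) | hQ) | hQ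
        · subst hQ
          exact Or.inl (wb_srt_none occ fun s hs l hl => (hAll s (hrSA s hs)).1 l hl)
        · exact wb_flip occ (hQUs Q hQ) hrs
        · exact wb_flip occ (hQVs Q hQ) (Or.inl hrt)
        · subst hQ
          exact Or.inl (wb_srt_none occ fun s hs l hl => (hAll s (hrSA s hs)).2.1 l hl)
    · refine ⟨ss, hss, hsub, ?_, [X], by simp, ?_, ?_⟩
      · exact le_trans (Nat.lt_two_pow_self).le hq
      · simp only [List.length_singleton, FW]
        omega
      · intro Q hQ
        rw [List.mem_singleton] at hQ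
        subst hQ
        exact Or.inl hsrt

end Pool.Agent.RKO
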