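import Pool.Agent.RKO.Mc
import Pool.Agent.RKO.Wb
import Pool.Agent.RKO.Rk

/-!
Project RKO (MP_e2be99_lc), module Cw.  Text: /team-store/rko_h34.md (section 4, critical sets are bounded).
Definitions in `Pool/Agent/RKO/Defs.lean` (and `UNK/Defs.lean`).

At a generic point `a'` the value is nonzero and all intervals of the words `C ∈ Cs` keep their rank at all the points `pt Y a' v`.
A minimal set `S` with nonzero value at `pt S a' v` cannot be large: `indep` and `wr` give a long list of variables for which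
`Cs.flatten` is a product of boundedly many sorted or reverse-sorted intervals of the `C`, and `mcl` bounds the length of the list.
-/

set_option autoImplicit false

namespace Pool.Agent.RKO

open MvPolynomial
open Pool.Agent.UNK (zar PF dot tp fc Fc)

universe u

private theorem Cw_pt_self {k : Type u} [Field k] {V : Type} (Y : Finset V) (v : V → k) : pt Y v v = v := by
  classical
  funext u
  simp [pt]

private theorem Cw_generic {k : Type u} [Field k] [Infinite k] {V : Type} [Fintype V] {w : ℕ} (g : ℕ)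
    (Cs : List (List (Letter k V w))) (v a : V → k) (halv : ∀ C ∈ Cs, Alv C v)
    (φ : Matrix (Fin g → Fin w) (Fin g → Fin w) k) (h : dot φ (tp g (wv Cs.flatten a)) ≠ 0) :
    ∃ a' : V → k, dot φ (tp g (wv Cs.flatten a')) ≠ 0 ∧
      ∀ J : List (Letter k V w), (∃ C ∈ Cs, J <:+: C) → ∀ Y : Finset V,
        (wv J (pt Y a' v)).rank = (wv J v).rank := by
  classical
  have e1 : ∀ᶠ a' in zar k V, dot φ (tp g (wv Cs.flatten a')) ≠ 0 := by
    refine PF.ev_ne (f := fun a' => dot φ (tp g (wv Cs.flatten a'))) ?_ ⟨a, h⟩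
    refine PF.dot φ (M := fun a' => tp g (wv Cs.flatten a')) fun p q => ?_
    exact PF.prod Finset.univ (f := fun i a' => wv Cs.flatten a' (p i) (q i)) fun i _ =>
      wv_pf Cs.flatten (p i) (q i)
  have hfin : {J : List (Letter k V w) | ∃ C ∈ Cs, J <:+: C}.Finite := by
    refine Set.Finite.subset (Set.Finite.biUnion (List.finite_toSet Cs) fun C _ =>
      List.finite_toSet C.sublists) ?_
    rintro J ⟨C, hC, hJ⟩
    exact Set.mem_biUnion (show C ∈ {x | x ∈ Cs} from hC) (List.mem_sublists.2 hJ.sublist)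
  have e2 : ∀ᶠ a' in zar k V, ∀ J ∈ {J : List (Letter k V w) | ∃ C ∈ Cs, J <:+: C},
      ∀ Y : Finset V, (wv J v).rank ≤ (wv J (pt Y a' v)).rank := by
    rw [Filter.eventually_all_finite hfin]
    intro J _
    rw [Filter.eventually_all]
    intro Y
    refine rank_ev (fun a' => wv J (pt Y a' v)) (wv_pt_pf J Y v) _ v ?_
    show (wv J v).rank ≤ (wv J (pt Y v v)).rank
    rw [Cw_pt_self]
  have := UNK.zar_neBot k V
  obtain ⟨a', h1, h2⟩ := (e1.and e2).exists
  refine ⟨a', h1, fun J hJ Y => le_antisymm ?_ (h2 J hJ Y)⟩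
  obtain ⟨C, hC, hJC⟩ := hJ
  exact halv C hC J hJC _

private theorem Cw_min {V : Type} [Fintype V] (P : Finset V → Prop) (h : P Finset.univ) :
    ∃ S, P S ∧ ∀ T, T ⊂ S → ¬ P T := by
  obtain ⟨S, hS, hmin⟩ := (wellFounded_lt (α := Finset V)).has_min {S | P S} ⟨Finset.univ, h⟩
  exact ⟨S, hS, fun T hT hPT => hmin T hPT hT⟩

private theorem Cw_ofFn {k : Type u} [Field k] {V : Type} {w : ℕ} (Rs : List (List (Letter k V w)))
    (x : V → k) : (List.ofFn fun j : Fin Rs.length => wv (Rs.get j) x).prod = wv Rs.flatten x := by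
  rw [wv_flatten]
  congr 1
  conv_rhs => rw [← List.ofFn_get Rs, List.map_ofFn]
  rfl

private theorem Cw_pow {w g m f : ℕ} (hg : g ≤ w) (hm : m ≤ f) : w ^ (g * m) ≤ w ^ (w * f) := by
  rcases Nat.eq_zero_or_pos w with rfl | hw
  · have : g = 0 := by omega
    subst this
    simp
  · exact Nat.pow_le_pow_right hw (Nat.mul_le_mul hg hm)

/-- `wr` for letters in an arbitrary universe: apply it to the positions of the letters -/
private theorem Cw_wr {α : Type} {β : Type u} (occ : β → α → Prop) (κ q : ℕ) (X : List β) (S : List α)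
    (hS : S.Nodup)
    (hcount : ∀ s ∈ S, (X.filter (fun l => @decide (occ l s) (Classical.propDecidable _))).length ≤ κ)
    (hind : ∀ l ∈ X, ∀ s ∈ S, ∀ s' ∈ S, occ l s → occ l s' → s = s')
    (hlen : GW κ q ≤ S.length) :
    ∃ ss : List α, ss.Nodup ∧ (∀ s ∈ ss, s ∈ S) ∧ q ≤ ss.length ∧
      ∃ Qs : List (List β), Qs.flatten = X ∧ Qs.length ≤ FW κ ∧
        ∀ Q ∈ Qs, Srt occ ss Q ∨ Srt occ ss.reverse Q := by
  have hX : (List.finRange X.length).map X.get = X := List.map_get_finRange X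
  obtain ⟨ss, h1, h2, h3, Qs, h4, h5, h6⟩ := wr (fun (i : Fin X.length) (s : α) => occ (X.get i) s) κ q
    (List.finRange X.length) S hS (by
      intro s hs
      refine le_of_eq_of_le ?_ (hcount s hs)
      conv_rhs => rw [← hX, List.filter_map, List.length_map]
      rfl)
    (fun i _ s hs s' hs' => hind _ (List.get_mem X i) s hs s' hs') hlen
  refine ⟨ss, h1, h2, h3, Qs.map fun Q => Q.map X.get, ?_, ?_, ?_⟩
  · rw [← List.map_flatten, h4, hX]
  · rw [List.length_map]
    exact h5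
  · intro Q hQ
    obtain ⟨Q₀, hQ₀, rfl⟩ := List.mem_map.1 hQ
    have h7 : ∀ tt : List α, Srt (fun (i : Fin X.length) (s : α) => occ (X.get i) s) tt Q₀ →
        Srt occ tt (Q₀.map X.get) := by
      intro tt h8
      unfold Srt at h8 ⊢
      rw [List.pairwise_map]
      exact h8
    rcases h6 Q₀ hQ₀ with h8 | h8
    · exact Or.inl (h7 _ h8)
    · exact Or.inr (h7 _ h8)

theorem cw {k : Type u} [Field k] [Infinite k] {V : Type} [Fintype V] {w : ℕ} (ρ b g : ℕ)
    (Cs : List (List (Letter k V w))) (hc : Cs.length ≤ 4) (v a : V → k)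
    (halv : ∀ C ∈ Cs, Alv C v) (hr : ∀ u, reads Cs.flatten u ≤ ρ)
    (hB : ∀ l ∈ Cs.flatten, l.B.card ≤ b) (hg : g ≤ w)
    (φ : Matrix (Fin g → Fin w) (Fin g → Fin w) k)
    (h : dot φ (tp g (wv Cs.flatten a)) ≠ 0) :
    ∃ (S : Finset V) (a' : V → k), S.card ≤ MM w ρ b ∧
      dot φ (tp g (wv Cs.flatten (pt S a' v))) ≠ 0 := by
  classical
  obtain ⟨a', hne, hrk⟩ := Cw_generic g Cs v a halv φ h
  have huniv : dot φ (tp g (wv Cs.flatten (pt Finset.univ a' v))) ≠ 0 := by
    have e : pt Finset.univ a' v = a' := by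
      funext u
      simp [pt]
    rw [e]
    exact hne
  obtain ⟨S, hS, hmin⟩ := Cw_min (fun S => dot φ (tp g (wv Cs.flatten (pt S a' v))) ≠ 0) huniv
  refine ⟨S, a', ?_, hS⟩
  by_contra hcard
  have hcard' : MM w ρ b ≤ S.card := by omega
  obtain ⟨S₁, hS₁, hc₁, hi₁⟩ := indep Cs.flatten ρ b hr hB S
    (GW ρ (fc (w ^ (w * (FW ρ + 4))) + 1)) hcard'
  have hcount : ∀ s ∈ S₁.toList, (Cs.flatten.filter
      (fun l => @decide (s ∈ l.B) (Classical.propDecidable _))).length ≤ ρ := by
    intro s _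
    have h0 := hr s
    unfold reads at h0
    refine le_of_eq_of_le (congrArg List.length (List.filter_congr fun l _ => ?_)) h0
    exact decide_eq_decide.2 Iff.rfl
  have hind' : ∀ l ∈ Cs.flatten, ∀ s ∈ S₁.toList, ∀ s' ∈ S₁.toList, s ∈ l.B → s' ∈ l.B → s = s' := by
    intro l hl s hs s' hs' h1 h2
    exact hi₁ l hl s (Finset.mem_toList.1 hs) s' (Finset.mem_toList.1 hs') h1 h2
  have hlen' : GW ρ (fc (w ^ (w * (FW ρ + 4))) + 1) ≤ S₁.toList.length := by
    rw [Finset.length_toList, hc₁]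
  obtain ⟨ss, hss, hssS, hlen, Qs, hQ, hQl, hQs⟩ := Cw_wr (fun (l : Letter k V w) (s : V) => s ∈ l.B) ρ
    (fc (w ^ (w * (FW ρ + 4))) + 1) Cs.flatten S₁.toList (Finset.nodup_toList S₁) hcount hind' hlen'
  have hssS' : ∀ s ∈ ss, s ∈ S₁ := fun s hs => Finset.mem_toList.1 (hssS s hs)
  obtain ⟨Rs, hR, hRl, hRs⟩ := refine_two Cs Qs hQ.symm
  obtain ⟨Φ, hΦ⟩ := prod_dot (I := Fin w) g Rs.length φ
  have hval : ∀ x : V → k, dot φ (tp g (wv Cs.flatten x)) =
      dot Φ (tf fun ij : Fin g × Fin Rs.length => wv (Rs.get ij.2) x) := by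
    intro x
    rw [← hR, ← Cw_ofFn Rs x]
    exact hΦ fun j => wv (Rs.get j) x
  have hsub : ss.toFinset ⊆ S := by
    intro s hs
    exact hS₁ (hssS' s (List.mem_toFinset.1 hs))
  have hmem : ∀ j : Fin Rs.length, Rs.get j ∈ Rs := fun j => List.get_mem Rs j
  have hcon := mcl (κ := Fin g × Fin Rs.length) (fun ij => Rs.get ij.2) v a' ss hss
    (by
      intro i J hJ Y
      obtain ⟨⟨C, hC, hRC⟩, _⟩ := hRs _ (hmem i.2)
      exact hrk J ⟨C, hC, hJ.trans hRC⟩ Y)
    (by
      intro i l hl s hs s' hs' h1 h2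
      have hl' : l ∈ Cs.flatten := by
        rw [← hR]
        exact List.mem_flatten.2 ⟨_, hmem i.2, hl⟩
      exact hi₁ l hl' s (hssS' s hs) s' (hssS' s' hs') h1 h2)
    (by
      intro i
      obtain ⟨_, Q, hQm, hRQ⟩ := hRs _ (hmem i.2)
      rcases hQs Q hQm with h1 | h1
      · exact Or.inl (srt_infix _ ss hRQ h1)
      · exact Or.inr (srt_infix _ ss.reverse hRQ h1))
    Φ (S \ ss.toFinset)
    (by
      intro s hs hs'
      exact (Finset.mem_sdiff.1 hs').2 (List.mem_toFinset.2 hs))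
    (by
      rw [Finset.sdiff_union_of_subset hsub, ← hval]
      exact hS)
    (by
      intro T hT
      rw [← hval]
      by_contra hTne
      refine hmin _ ?_ hTne
      rw [Finset.ssubset_iff_of_subset]
      · obtain ⟨s, hs, hsT⟩ := Finset.exists_of_ssubset hT
        refine ⟨s, hsub hs, fun h2 => ?_⟩
        rcases Finset.mem_union.1 h2 with h3 | h3
        · exact (Finset.mem_sdiff.1 h3).2 hs
        · exact hsT h3
      · exact Finset.union_subset Finset.sdiff_subset (hT.1.trans hsub))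
  rw [Fintype.card_prod, Fintype.card_fin, Fintype.card_fin] at hcon
  have h5 : w ^ (g * Rs.length) ≤ w ^ (w * (FW ρ + 4)) := Cw_pow hg (by omega)
  have h6 := fc_mono h5
  omega

end Pool.Agent.RKO
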