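import Pool.Agent.UNK.Defs

/-!
Project RKO (MP_e2be99_lc): read-`ρ` oblivious programs of constant width in arbitrary unknown
reading patterns.  Definitions.  Text of the proof: /team-store/rko_h34.md
-/

set_option autoImplicit false

namespace Pool.Agent.RKO

open MvPolynomial
open Pool.Agent.UNK (zar PF dot tp fc Fc)

universe u

/-- a letter: a matrix of polynomial functions of the variables in `B` -/
structure Letter (k : Type u) [Field k] (V : Type) (w : ℕ) where
  B : Finset V
  f : (V → k) → Matrix (Fin w) (Fin w) k
  dep : ∀ x y : V → k, (∀ u ∈ B, x u = y u) → f x = f y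
  pf : ∀ p q, PF (fun x => f x p q)

section

variable {k : Type u} [Field k] {V : Type} {w : ℕ}

/-- value of a word -/
def wv (W : List (Letter k V w)) (x : V → k) : Matrix (Fin w) (Fin w) k :=
  (W.map fun l => l.f x).prod

open scoped Classical in
/-- number of letters which read the variable `u` -/
noncomputable def reads (W : List (Letter k V w)) (u : V) : ℕ :=
  (W.filter (fun l => u ∈ l.B)).length

open scoped Classical in
/-- the point which is `a` on `S` and `v` outside -/
noncomputable def pt (S : Finset V) (a v : V → k) : V → k := fun u => if u ∈ S then a u else v u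

/-- all intervals of the word have their greatest rank at `v` -/
def Alv (W : List (Letter k V w)) (v : V → k) : Prop :=
  ∀ J : List (Letter k V w), J <:+: W → ∀ x : V → k, (wv J x).rank ≤ (wv J v).rank

/-- all intervals of the word of generic rank at least `r` have their greatest rank at `v` -/
def Ral (r : ℕ) (W : List (Letter k V w)) (v : V → k) : Prop :=
  ∀ J : List (Letter k V w), J <:+: W → (∃ x : V → k, r ≤ (wv J x).rank) →
    ∀ x : V → k, (wv J x).rank ≤ (wv J v).rank

open scoped Classical in
/-- the Shpilka-Volkovich point of level `K` with parameters `θ = (c, s)` -/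
noncomputable def sv [Fintype V] (al : V → k) (K : ℕ) (θ : Fin K ⊕ Fin K → k) : V → k :=
  fun u => ∑ j : Fin K, θ (Sum.inl j) * ∏ i ∈ Finset.univ.erase u, (θ (Sum.inr j) - al i)

end

/-- tensor product of a family of matrices -/
def tf {R : Type*} [CommMonoid R] {κ : Type} [Fintype κ] {α β : Type} (M : κ → Matrix α β R) :
    Matrix (κ → α) (κ → β) R :=
  Matrix.of fun f f' => ∏ i, M i (f i) (f' i)

/-- no letter with `s'` stands before a letter with `s` if `s` comes before `s'` in `ss` -/
def Srt {α β : Type*} (occ : β → α → Prop) (ss : List α) (X : List β) : Prop :=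
  X.Pairwise fun l l' => ∀ s s', occ l s → occ l' s' → ¬ List.Sublist [s', s] ss

/-- the number of passes -/
def FW : ℕ → ℕ
  | 0 => 1
  | κ + 1 => 2 * FW κ + 2

/-- auxiliary recursion -/
def gg (q₁ : ℕ) : ℕ → ℕ
  | 0 => 1
  | d + 1 => 2 * gg q₁ d + 2 * q₁ + 2

/-- the Ramsey type number -/
def GW : ℕ → ℕ → ℕ
  | 0, q => q
  | κ + 1, q => gg (GW κ (GW κ (q * q))) q

/-- bound for critical sets -/
def MM (w ρ b : ℕ) : ℕ := GW ρ (fc (w ^ (w * (FW ρ + 4))) + 1) * (ρ * b + 1)

/-- the level -/
def KR (w ρ b : ℕ) : ℕ := b + (w + 2) * MM w ρ b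

end Pool.Agent.RKO
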