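import Pool.Agent.RKO.Sv

/-!
Project RKO (MP_e2be99_lc), module Hs: the grid of the parameters.

The value of `f` at the points of level `K` is a polynomial in the `2 K` parameters with small degree in every parameter, so it
does not vanish on the whole grid if it does not vanish identically.
-/

set_option autoImplicit false

namespace Pool.Agent.RKO

open MvPolynomial
open Pool.Agent.UNK (zar PF dot tp fc Fc)

universe u

private theorem Hs_degreeOf_aeval_le {k : Type u} [Field k] {σ : Type} {n : ℕ} (i : σ)
    (q : Fin n → MvPolynomial σ k) (b : ℕ) (hq : ∀ u, (q u).degreeOf i ≤ b)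
    (g : MvPolynomial (Fin n) k) : (aeval q g).degreeOf i ≤ g.totalDegree * b := by
  classical
  rw [aeval_def, eval₂_eq']
  refine (degreeOf_sum_le i _ _).trans ?_
  refine Finset.sup_le ?_
  intro m hm
  refine (degreeOf_mul_le i _ _).trans ?_
  have h0 : degreeOf i (algebraMap k (MvPolynomial σ k) (coeff m g)) = 0 := by
    rw [algebraMap_eq]
    exact degreeOf_C _ _
  rw [h0, zero_add]
  refine (degreeOf_prod_le i _ _).trans ?_
  calc ∑ u : Fin n, degreeOf i (q u ^ m u) ≤ ∑ u : Fin n, m u * b := by
        refine Finset.sum_le_sum fun u _ => ?_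
        exact (degreeOf_pow_le i _ _).trans (Nat.mul_le_mul_left _ (hq u))
    _ = (∑ u : Fin n, m u) * b := by rw [Finset.sum_mul]
    _ ≤ g.totalDegree * b := by
        refine Nat.mul_le_mul_right _ ?_
        have := le_totalDegree hm
        rwa [Finsupp.sum_fintype] at this
        intro _
        rfl

private theorem Hs_lin {k : Type u} [Field k] {σ : Type} (i j : σ) (a : k) :
    degreeOf i (X j - C a : MvPolynomial σ k) ≤ degreeOf i (X j : MvPolynomial σ k) := by
  rw [sub_eq_add_neg, ← C_neg]
  refine (degreeOf_add_le _ _ _).trans ?_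
  rw [degreeOf_C]
  simp

open scoped Classical in
theorem grid {k : Type u} [Field k] (n D K : ℕ) (al : Fin n → k) (e : ℕ → k)
    (he : Function.Injective e) (f : MvPolynomial (Fin n) k) (hf : f.totalDegree ≤ D)
    (θ : Fin K ⊕ Fin K → k) (h : eval (sv al K θ) f ≠ 0) :
    ∃ c s : Fin K → ℕ, (∀ j, c j ≤ D ∧ s j ≤ n * D) ∧
      eval (sv al K (Sum.elim (fun j => e (c j)) fun j => e (s j))) f ≠ 0 := by
  by_contra hcon
  push Not at hcon
  set q : Fin n → MvPolynomial (Fin K ⊕ Fin K) k :=
    fun u => ∑ j : Fin K, X (Sum.inl j) * ∏ i ∈ Finset.univ.erase u, (X (Sum.inr j) - C (al i)) with hqdef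
  have hev : ∀ θ' : Fin K ⊕ Fin K → k, eval θ' (aeval q f) = eval (sv al K θ') f := by
    intro θ'
    have h1 : eval θ' (aeval q f) = eval (fun u => eval θ' (q u)) f := by
      rw [aeval_def, ← coe_eval₂Hom]
      change (eval θ').comp (eval₂Hom (algebraMap k (MvPolynomial (Fin K ⊕ Fin K) k)) q) f =
        eval (fun u => eval θ' (q u)) f
      congr 1
      refine ringHom_ext ?_ ?_
      · intro a
        simp
      · intro u
        simp
    rw [h1]
    congr 2
    funext u
    simp only [hqdef, sv, map_sum, map_mul, map_prod, map_sub, eval_X, eval_C]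
    refine Finset.sum_congr rfl fun j _ => ?_
    congr 1
    refine Finset.prod_congr ?_ fun _ _ => rfl
    ext i
    simp only [Finset.mem_erase]
  have hG : aeval q f ≠ 0 := by
    intro h0
    apply h
    rw [← hev θ, h0, map_zero]
  set S : Fin K ⊕ Fin K → Finset k := fun t => match t with
    | Sum.inl _ => (Finset.range (D + 1)).image e
    | Sum.inr _ => (Finset.range (n * D + 1)).image e with hS
  have hcard : ∀ N : ℕ, ((Finset.range N).image e).card = N := by
    intro N
    rw [Finset.card_image_of_injective _ he, Finset.card_range]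
  apply hG
  refine eq_zero_of_eval_zero_at_prod_finset (aeval q f) S ?_ ?_
  · intro t
    rcases t with j | j
    · have h1 : (aeval q f).degreeOf (Sum.inl j) ≤ f.totalDegree * 1 := by
        refine Hs_degreeOf_aeval_le _ q 1 ?_ f
        intro u
        refine (degreeOf_sum_le _ _ _).trans (Finset.sup_le fun i _ => ?_)
        refine (degreeOf_mul_le _ _ _).trans ?_
        have h2 : degreeOf (Sum.inl j) (X (Sum.inl i) : MvPolynomial (Fin K ⊕ Fin K) k) ≤ 1 := by
          rw [degreeOf_X]
          split_ifs <;> simp
        have h3 : degreeOf (Sum.inl j)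
            (∏ i' ∈ Finset.univ.erase u, (X (Sum.inr i) - C (al i') : MvPolynomial (Fin K ⊕ Fin K) k)) ≤ 0 := by
          refine (degreeOf_prod_le _ _ _).trans (le_of_eq (Finset.sum_eq_zero fun i' _ => ?_))
          refine Nat.eq_zero_of_le_zero ((Hs_lin _ _ _).trans (le_of_eq ?_))
          exact degreeOf_X_of_ne (by simp)
        omega
      have h4 : (S (Sum.inl j)).card = D + 1 := hcard _
      rw [h4]
      omega
    · have h1 : (aeval q f).degreeOf (Sum.inr j) ≤ f.totalDegree * n := by
        refine Hs_degreeOf_aeval_le _ q n ?_ f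
        intro u
        refine (degreeOf_sum_le _ _ _).trans (Finset.sup_le fun i _ => ?_)
        refine (degreeOf_mul_le _ _ _).trans ?_
        have h2 : degreeOf (Sum.inr j) (X (Sum.inl i) : MvPolynomial (Fin K ⊕ Fin K) k) = 0 :=
          degreeOf_X_of_ne (by simp)
        have h3 : degreeOf (Sum.inr j)
            (∏ i' ∈ Finset.univ.erase u, (X (Sum.inr i) - C (al i') : MvPolynomial (Fin K ⊕ Fin K) k)) ≤ n := by
          refine (degreeOf_prod_le _ _ _).trans ?_
          calc ∑ i' ∈ Finset.univ.erase u, degreeOf (Sum.inr j)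
                (X (Sum.inr i) - C (al i') : MvPolynomial (Fin K ⊕ Fin K) k)
              ≤ ∑ i' ∈ Finset.univ.erase u, 1 := by
                refine Finset.sum_le_sum fun i' _ => (Hs_lin _ _ _).trans ?_
                rw [degreeOf_X]
                split_ifs <;> simp
            _ = (Finset.univ.erase u).card := by simp
            _ ≤ (Finset.univ : Finset (Fin n)).card := Finset.card_le_card (Finset.erase_subset _ _)
            _ = n := by simp
        omega
      have h4 : (S (Sum.inr j)).card = n * D + 1 := hcard _
      rw [h4]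
      have h5 : f.totalDegree * n ≤ n * D := by
        rw [mul_comm]
        exact Nat.mul_le_mul_left _ hf
      omega
  · intro a ha
    rw [hev a]
    have hc : ∀ j : Fin K, ∃ m : ℕ, m ∈ Finset.range (D + 1) ∧ e m = a (Sum.inl j) := by
      intro j
      have := ha (Sum.inl j)
      exact Finset.mem_image.mp this
    have hs : ∀ j : Fin K, ∃ m : ℕ, m ∈ Finset.range (n * D + 1) ∧ e m = a (Sum.inr j) := by
      intro j
      have := ha (Sum.inr j)
      exact Finset.mem_image.mp this
    choose c hc1 hc2 using hc
    choose s hs1 hs2 using hs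
    have h6 := hcon c s fun j => ⟨Nat.lt_succ_iff.1 (Finset.mem_range.1 (hc1 j)),
      Nat.lt_succ_iff.1 (Finset.mem_range.1 (hs1 j))⟩
    have h7 : (Sum.elim (fun j => e (c j)) fun j => e (s j)) = a := by
      funext t
      rcases t with j | j
      · exact hc2 j
      · exact hs2 j
    rw [h7] at h6
    exact h6

end Pool.Agent.RKO
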