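import Pool.Agent.RKO.Al
import Pool.Agent.RKO.Hs

/-!
Project RKO (MP_e2be99_lc), module Fn: the final theorems.

A word is alive at generic points of level `b + (w + 1) * MM w ρ b`, critical sets are bounded by `MM w ρ b`, so a nonzero
functional of the word is nonzero at some point of level `KR w ρ b`; this gives the hitting property for the polynomials
`IsRK w ρ b`, their products and the divisors of the products.
-/

set_option autoImplicit false

namespace Pool.Agent.RKO

open MvPolynomial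
open Pool.Agent.UNK (zar PF dot tp fc Fc)

universe u

section

variable {k : Type u} [Field k] [Infinite k]

omit [Infinite k] in
private theorem Fn_dot_one {w : ℕ} (Φ M : Matrix (Fin w) (Fin w) k) :
    dot (Matrix.of fun f f' : Fin 1 → Fin w => Φ (f 0) (f' 0)) (tp 1 M) = dot Φ M := by
  unfold dot tp
  rw [← (Equiv.funUnique (Fin 1) (Fin w)).symm.sum_comp]
  refine Finset.sum_congr rfl fun p _ => ?_
  rw [← (Equiv.funUnique (Fin 1) (Fin w)).symm.sum_comp]
  refine Finset.sum_congr rfl fun q _ => ?_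
  rw [Matrix.of_apply, Matrix.of_apply, Fin.prod_univ_one]
  rfl

theorem word_hit {V : Type} [Fintype V] {w : ℕ} (al : V → k) (hal : Function.Injective al)
    (ρ b : ℕ) (W : List (Letter k V w)) (hr : ∀ u, reads W u ≤ ρ) (hB : ∀ l ∈ W, l.B.card ≤ b)
    (Φ : Matrix (Fin w) (Fin w) k) (a : V → k) (h : dot Φ (wv W a) ≠ 0) :
    ∃ θ : Fin (KR w ρ b) ⊕ Fin (KR w ρ b) → k, dot Φ (wv W (sv al (KR w ρ b) θ)) ≠ 0 := by
  have hw : 1 ≤ w := by
    rcases Nat.eq_zero_or_pos w with h0 | h0
    · exfalso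
      subst h0
      apply h
      unfold dot
      exact Finset.sum_eq_zero fun p _ => p.elim0
    · exact h0
  have := UNK.zar_neBot k (Fin (b + (w + 1) * MM w ρ b) ⊕ Fin (b + (w + 1) * MM w ρ b))
  obtain ⟨θ, hθ⟩ := (al_all al hal ρ b W hr hB).exists
  have halv : Alv W (sv al (b + (w + 1) * MM w ρ b) θ) :=
    fun J hJ x => hθ J hJ ⟨x, Nat.zero_le _⟩ x
  have hfl : [W].flatten = W := by simp
  have h1 : dot (Matrix.of fun f f' : Fin 1 → Fin w => Φ (f 0) (f' 0)) (tp 1 (wv [W].flatten a)) ≠ 0 := by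
    rw [hfl, Fn_dot_one]
    exact h
  obtain ⟨S, a', hS, hne⟩ := cw ρ b 1 [W] (by simp) (sv al (b + (w + 1) * MM w ρ b) θ) a
    (fun C hC => by
      rw [List.mem_singleton] at hC
      rw [hC]
      exact halv)
    (fun u => by rw [hfl]; exact hr u) (fun l hl => hB l (by rw [hfl] at hl; exact hl)) hw _ h1
  rw [hfl, Fn_dot_one] at hne
  have hK : b + (w + 1) * MM w ρ b + MM w ρ b = KR w ρ b := by
    unfold KR
    ring
  have h2 : ∃ θ' : Fin (KR w ρ b) ⊕ Fin (KR w ρ b) → k,
      sv al (KR w ρ b) θ' = pt S a' (sv al (b + (w + 1) * MM w ρ b) θ) := by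
    rw [← hK]
    exact sv_pt al hal (b + (w + 1) * MM w ρ b) (MM w ρ b) θ S hS a'
  obtain ⟨θ', hθ'⟩ := h2
  exact ⟨θ', by rw [hθ']; exact hne⟩

/-- `f = ∑ p q, Φ p q * (M 1 * .. * M N) p q`, `M i` a `w x w` matrix of polynomials in the variables of a
set of at most `b` variables, every variable in at most `ρ` of these sets -/
def IsRK {n : ℕ} (w ρ b : ℕ) (f : MvPolynomial (Fin n) k) : Prop :=
  ∃ (L : List (Finset (Fin n) × Matrix (Fin w) (Fin w) (MvPolynomial (Fin n) k)))
    (Φ : Matrix (Fin w) (Fin w) k),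
    (∀ l ∈ L, l.1.card ≤ b ∧ ∀ p q, (l.2 p q).vars ⊆ l.1) ∧
    (∀ u, (L.filter fun l => u ∈ l.1).length ≤ ρ) ∧
    f = ∑ p, ∑ q, C (Φ p q) * (L.map fun l => l.2).prod p q

open scoped Classical in
/-- the letter of a matrix of polynomials (zero if the variables are not in the set) -/
private noncomputable def Fn_lt {n : ℕ} {w : ℕ}
    (l : Finset (Fin n) × Matrix (Fin w) (Fin w) (MvPolynomial (Fin n) k)) :
    Letter k (Fin n) w where
  B := l.1
  f := fun x => if ∀ p q, (l.2 p q).vars ⊆ l.1 then l.2.map (eval x) else 0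
  dep := by
    intro x y hxy
    by_cases h : ∀ p q, (l.2 p q).vars ⊆ l.1
    · rw [if_pos h, if_pos h]
      ext p q
      rw [Matrix.map_apply, Matrix.map_apply]
      exact eval₂Hom_congr' rfl (fun i hi _ => hxy i (h p q hi)) rfl
    · rw [if_neg h, if_neg h]
  pf := by
    intro p q
    by_cases h : ∀ p q, (l.2 p q).vars ⊆ l.1
    · refine ⟨l.2 p q, fun a => ?_⟩
      show (if ∀ p q, (l.2 p q).vars ⊆ l.1 then l.2.map (eval a) else 0) p q = eval a (l.2 p q)
      rw [if_pos h, Matrix.map_apply]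
    · refine ⟨0, fun a => ?_⟩
      show (if ∀ p q, (l.2 p q).vars ⊆ l.1 then l.2.map (eval a) else 0) p q =
        eval a (0 : MvPolynomial (Fin n) k)
      rw [if_neg h, map_zero]
      rfl

private theorem Fn_dec (p : Prop) (i : Decidable p) (h : p) : @decide p i = true :=
  decide_eq_true h

private theorem Fn_dec' (p : Prop) (i : Decidable p) (h : @decide p i = true) : p :=
  of_decide_eq_true h

omit [Infinite k] in
private theorem Fn_reads {n : ℕ} {w : ℕ}
    (L : List (Finset (Fin n) × Matrix (Fin w) (Fin w) (MvPolynomial (Fin n) k))) (u : Fin n) :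
    reads (L.map Fn_lt) u = (L.filter fun l => u ∈ l.1).length := by
  induction L with
  | nil => rfl
  | cons l L ih =>
    unfold reads at ih ⊢
    rw [List.map_cons, List.filter_cons, List.filter_cons]
    split_ifs with h1 h2 h2
    · rw [List.length_cons, List.length_cons, ih]
    · exact (h2 (Fn_dec _ _ (Fn_dec' _ _ h1))).elim
    · exact (h1 (Fn_dec _ _ (Fn_dec' _ _ h2))).elim
    · exact ih

omit [Infinite k] in
private theorem Fn_wv {n : ℕ} {w : ℕ}
    (L : List (Finset (Fin n) × Matrix (Fin w) (Fin w) (MvPolynomial (Fin n) k)))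
    (hL : ∀ l ∈ L, ∀ p q, (l.2 p q).vars ⊆ l.1) (x : Fin n → k) :
    wv (L.map Fn_lt) x = Matrix.map (List.prod (L.map fun l => l.2)) (eval x) := by
  have h1 : ∀ M : Matrix (Fin w) (Fin w) (MvPolynomial (Fin n) k),
      M.map (eval x) = (eval x).mapMatrix M := fun M => rfl
  rw [h1, map_list_prod, List.map_map]
  unfold wv
  rw [List.map_map]
  refine congrArg List.prod (List.map_congr_left fun l hl => ?_)
  show (if ∀ p q, (l.2 p q).vars ⊆ l.1 then l.2.map (eval x) else 0) = l.2.map (eval x)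
  exact if_pos (hL l hl)

theorem rk_gen {n : ℕ} (w ρ b : ℕ) (al : Fin n → k) (hal : Function.Injective al)
    (f : MvPolynomial (Fin n) k) (hf : f ≠ 0) (h : IsRK w ρ b f) :
    ∃ θ : Fin (KR w ρ b) ⊕ Fin (KR w ρ b) → k, eval (sv al (KR w ρ b) θ) f ≠ 0 := by
  obtain ⟨L, Φ, hL, hread, hfe⟩ := h
  have hval : ∀ x, eval x f = dot Φ (wv (L.map Fn_lt) x) := by
    intro x
    rw [Fn_wv L (fun l hl => (hL l hl).2) x, hfe, map_sum]
    unfold dot
    refine Finset.sum_congr rfl fun p _ => ?_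
    rw [map_sum]
    refine Finset.sum_congr rfl fun q _ => ?_
    rw [map_mul, eval_C, Matrix.map_apply]
  have hex : ∃ a, eval a f ≠ 0 := by
    by_contra hcon
    apply hf
    refine MvPolynomial.funext fun x => ?_
    rw [map_zero]
    by_contra hx
    exact hcon ⟨x, hx⟩
  obtain ⟨a, ha⟩ := hex
  rw [hval] at ha
  obtain ⟨θ, hθ⟩ := word_hit al hal ρ b (L.map Fn_lt)
    (fun u => by rw [Fn_reads]; exact hread u)
    (fun l hl => by
      obtain ⟨l', hl', rfl⟩ := List.mem_map.1 hl
      exact (hL l' hl').1) Φ a ha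
  exact ⟨θ, by rw [hval]; exact hθ⟩

theorem rk_dvd {n : ℕ} (w ρ b D : ℕ) (al : Fin n → k) (hal : Function.Injective al) (e : ℕ → k)
    (he : Function.Injective e) (S : Multiset (MvPolynomial (Fin n) k))
    (hS : ∀ f ∈ S, f ≠ 0 ∧ IsRK w ρ b f) (g : MvPolynomial (Fin n) k) (hg : g ∣ S.prod)
    (hD : g.totalDegree ≤ D) :
    ∃ c s : Fin (KR w ρ b) → ℕ, (∀ j, c j ≤ D ∧ s j ≤ n * D) ∧
      eval (sv al (KR w ρ b) (Sum.elim (fun j => e (c j)) fun j => e (s j))) g ≠ 0 := by
  have h1 : ∀ᶠ θ in zar k (Fin (KR w ρ b) ⊕ Fin (KR w ρ b)),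
      eval (sv al (KR w ρ b) θ) S.prod ≠ 0 := by
    clear hg
    induction S using Multiset.induction_on with
    | empty =>
      refine Filter.Eventually.of_forall fun θ => ?_
      rw [Multiset.prod_zero, map_one]
      exact one_ne_zero
    | cons f S ih =>
      have h2 := ih fun f' hf' => hS f' (Multiset.mem_cons_of_mem hf')
      obtain ⟨hf0, hfR⟩ := hS f (Multiset.mem_cons_self f S)
      obtain ⟨θ, hθ⟩ := rk_gen w ρ b al hal f hf0 hfR
      have h3 := sv_ev al hal (le_refl (KR w ρ b)) (fun a => eval a f) ⟨f, fun a => rfl⟩ θ hθ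
      filter_upwards [h2, h3] with θ' h4 h5
      rw [Multiset.prod_cons, map_mul]
      exact mul_ne_zero h5 h4
  have := UNK.zar_neBot k (Fin (KR w ρ b) ⊕ Fin (KR w ρ b))
  obtain ⟨θ, hθ⟩ := h1.exists
  refine grid n D (KR w ρ b) al e he g hD θ fun h2 => hθ ?_
  obtain ⟨q, hq⟩ := hg
  rw [hq, map_mul, h2, zero_mul]

end

end Pool.Agent.RKO
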