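import Pool.Agent.RKO.Defs
import Pool.Agent.UNK.Ca

/-!
Project RKO (MP_e2be99_lc), module Lc.  Text: /team-store/rko_h34.md (section 3, Lemma C for general index types).
Definitions in `Pool/Agent/RKO/Defs.lean` (and `UNK/Defs.lean`).
Transport of Lemma C along an equivalence of the index type with `Fin`; monotonicity of the critical number.
-/

set_option autoImplicit false

namespace Pool.Agent.RKO

open MvPolynomial
open Pool.Agent.UNK (zar PF dot tp fc Fc)

universe u

private theorem lc_prod {k : Type u} [Field k] {I : Type} [Fintype I] [DecidableEq I] {n : ℕ} (e : I ≃ Fin n)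
    (L : List (Matrix I I k)) :
    (L.prod).submatrix e.symm e.symm = (L.map fun M => M.submatrix e.symm e.symm).prod := by
  induction L with
  | nil =>
    rw [List.prod_nil, List.map_nil, List.prod_nil]
    exact Matrix.submatrix_one_equiv e.symm
  | cons M L ih => rw [List.prod_cons, List.map_cons, List.prod_cons, ← ih, Matrix.submatrix_mul_equiv]

open scoped Classical in
private theorem lc_hp {k : Type u} [Field k] {I : Type} [Fintype I] [DecidableEq I] {α : Type} {n : ℕ}
    (e : I ≃ Fin n) (b g : α → Matrix I I k) (S : Set α) (J : List α) :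
    Pool.Agent.UNK.hp (fun x => (b x).submatrix e.symm e.symm) (fun x => (g x).submatrix e.symm e.symm) S J =
      ((J.map fun x => if x ∈ S then g x else b x).prod).submatrix e.symm e.symm := by
  unfold Pool.Agent.UNK.hp
  rw [lc_prod, List.map_map]
  congr 1
  refine List.map_congr_left fun x _ => ?_
  show _ = (if x ∈ S then g x else b x).submatrix e.symm e.symm
  by_cases h : x ∈ S
  · rw [if_pos h, if_pos h]
  · rw [if_neg h, if_neg h]

open scoped Classical in
theorem lemC' {k : Type u} [Field k] {I : Type} [Fintype I] [DecidableEq I] {α : Type}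
    (b g : α → Matrix I I k) (J : List α) (hJ : J.Nodup) (Ψ : Matrix I I k →ₗ[k] k)
    (hrk : ∀ J' : List α, J' <:+: J → ∀ S T : Set α,
      ((J'.map fun x => if x ∈ S then g x else b x).prod).rank =
        ((J'.map fun x => if x ∈ T then g x else b x).prod).rank)
    (h1 : Ψ ((J.map g).prod) ≠ 0)
    (h0 : ∀ S : Set α, (∃ x ∈ J, x ∉ S) →
      Ψ ((J.map fun x => if x ∈ S then g x else b x).prod) = 0) :
    J.length ≤ fc (Fintype.card I) := by
  have e := Fintype.equivFin I
  have hM : ∀ M : Matrix I I k, (Ψ ∘ₗ (Matrix.reindexLinearEquiv k k e.symm e.symm).toLinearMap)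
      (M.submatrix e.symm e.symm) = Ψ M := by
    intro M
    show Ψ ((M.submatrix e.symm e.symm).submatrix e.symm.symm e.symm.symm) = Ψ M
    rw [Matrix.submatrix_submatrix, Equiv.symm_symm, Equiv.symm_comp_self, Matrix.submatrix_id_id]
  refine Pool.Agent.UNK.lemC (fun x => (b x).submatrix e.symm e.symm) (fun x => (g x).submatrix e.symm e.symm) J hJ
    (Ψ ∘ₗ (Matrix.reindexLinearEquiv k k e.symm e.symm).toLinearMap) ⟨?_, ?_, ?_⟩
  · intro J' hJ' S T
    rw [lc_hp, lc_hp, Matrix.rank_submatrix, Matrix.rank_submatrix]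
    exact hrk J' hJ' S T
  · rw [lc_hp, hM]
    have h2 : (J.map fun x => @ite _ (x ∈ (Set.univ : Set α)) (Classical.propDecidable _) (g x) (b x)) = J.map g :=
      List.map_congr_left fun x _ => if_pos (Set.mem_univ x)
    rw [h2]
    exact h1
  · intro S hS
    rw [lc_hp, hM]
    exact h0 S hS

private theorem lc_w {w w' : ℕ} (h : w ≤ w') (j : ℕ) : Fc w j ≤ Fc w' j := by
  induction j with
  | zero => exact le_rfl
  | succ j ih =>
    have h1 : Fc w (j + 1) = (2 * w ^ 2 + 4) * (Fc w j + 1) := rfl
    have h2 : Fc w' (j + 1) = (2 * w' ^ 2 + 4) * (Fc w' j + 1) := rfl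
    rw [h1, h2]
    have h3 : w ^ 2 ≤ w' ^ 2 := Nat.pow_le_pow_left h 2
    exact Nat.mul_le_mul (by omega) (by omega)

private theorem lc_j (w : ℕ) : Monotone (Fc w) := by
  refine monotone_nat_of_le_succ fun j => ?_
  have h1 : Fc w (j + 1) = (2 * w ^ 2 + 4) * (Fc w j + 1) := rfl
  rw [h1]
  calc Fc w j ≤ 1 * (Fc w j + 1) := by omega
    _ ≤ (2 * w ^ 2 + 4) * (Fc w j + 1) := Nat.mul_le_mul_right _ (by omega)

theorem fc_mono {w w' : ℕ} (h : w ≤ w') : fc w ≤ fc w' :=
  le_trans (lc_w h (w + 1)) (lc_j w' (by omega))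

end Pool.Agent.RKO
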