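import Pool.Agent.RKO.Defs

/-!
Project RKO (MP_e2be99_lc), module Pl.  Text: /team-store/rko_h34.md (section 2, pure lists).
Definitions in `Pool/Agent/RKO/Defs.lean` (and `UNK/Defs.lean`).  Keep the statements;
helper lemmas private.

PLAN.
* `refine_two`: induction on `Cs.length + Qs.length`: if `Cs = C :: Cs'`, `Qs = Q :: Qs'` compare the lengths: if `C.length ≤ Q.length` then `Q = C ++ Q'`, `Rs = C :: Rs'` with `Rs'` from `Cs'`, `Q' :: Qs'`; else
  symmetric (`List.append_eq_append_iff`).  If one of them is empty the concatenation is `[]`: `Rs = []`.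
* `pieces`: induction on `ss` (for all `X`).  `ss = []`: `T = X`.  `s :: ss'`: if `s` does not occur in `X` take `P s = []`.  Otherwise `X = Y ++ X'` with `Y` ending in the last letter in which `s` occurs.  No `s' ∈ ss'` occurs in
  `Y`: before the last letter by `Srt` (`[s, s']` is a sublist of `s :: ss'`), in the last letter by `hind`.  `Srt occ ss' X'` and `s` does not occur in `X'`.  Apply induction to `X'`, `P s := Y` (`s ∉ ss'`, so `P` can be changed at `s`).
* `srt_infix`: `List.Pairwise` is inherited by infixes.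
-/

set_option autoImplicit false

namespace Pool.Agent.RKO

open MvPolynomial
open Pool.Agent.UNK (zar PF dot tp fc Fc)

universe u

private theorem Pl_refine {β : Type*} : ∀ (n : ℕ) (Cs Qs : List (List β)),
    Cs.length + Qs.length ≤ n → Cs.flatten = Qs.flatten →
    ∃ Rs : List (List β), Rs.flatten = Cs.flatten ∧ Rs.length ≤ Cs.length + Qs.length ∧
      ∀ R ∈ Rs, (∃ C ∈ Cs, R <:+: C) ∧ ∃ Q ∈ Qs, R <:+: Q := by
  intro n
  induction n with
  | zero =>
    intro Cs Qs hn h
    have h1 : Cs = [] := List.length_eq_zero_iff.1 (by omega)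
    subst h1
    exact ⟨[], rfl, by simp, by simp⟩
  | succ n ih =>
    intro Cs Qs hn h
    match Cs, Qs, hn, h with
    | [], Qs, hn, h => exact ⟨[], rfl, by simp, by simp⟩
    | C :: Cs, [], hn, h => exact ⟨[], by rw [h], by simp, by simp⟩
    | C :: Cs, Q :: Qs, hn, h =>
      rw [List.flatten_cons, List.flatten_cons, List.append_eq_append_iff] at h
      simp only [List.length_cons] at hn
      rcases h with ⟨a, h1, h2⟩ | ⟨c, h1, h2⟩
      · obtain ⟨Rs, r1, r2, r3⟩ := ih Cs (a :: Qs) (by simp only [List.length_cons]; omega)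
          (by rw [List.flatten_cons]; exact h2)
        refine ⟨C :: Rs, by rw [List.flatten_cons, List.flatten_cons, r1], ?_, ?_⟩
        · simp only [List.length_cons] at r2 ⊢
          omega
        · intro R hR
          rcases List.mem_cons.1 hR with rfl | hR
          · exact ⟨⟨R, by simp, List.infix_rfl⟩, ⟨Q, by simp, by
              rw [h1]; exact (List.prefix_append R a).isInfix⟩⟩
          · obtain ⟨⟨C', hC', e1⟩, ⟨Q', hQ', e2⟩⟩ := r3 R hR
            refine ⟨⟨C', List.mem_cons_of_mem _ hC', e1⟩, ?_⟩
            rcases List.mem_cons.1 hQ' with rfl | hQ'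
            · exact ⟨Q, by simp, e2.trans (by rw [h1]; exact (List.suffix_append C Q').isInfix)⟩
            · exact ⟨Q', List.mem_cons_of_mem _ hQ', e2⟩
      · obtain ⟨Rs, r1, r2, r3⟩ := ih (c :: Cs) Qs (by simp only [List.length_cons]; omega)
          (by rw [List.flatten_cons]; exact h2.symm)
        refine ⟨Q :: Rs, by
          rw [List.flatten_cons, List.flatten_cons, r1, List.flatten_cons, h1,
            List.append_assoc], ?_, ?_⟩
        · simp only [List.length_cons] at r2 ⊢
          omega
        · intro R hR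
          rcases List.mem_cons.1 hR with rfl | hR
          · exact ⟨⟨C, by simp, by
              rw [h1]; exact (List.prefix_append R c).isInfix⟩, ⟨R, by simp, List.infix_rfl⟩⟩
          · obtain ⟨⟨C', hC', e1⟩, ⟨Q', hQ', e2⟩⟩ := r3 R hR
            refine ⟨?_, ⟨Q', List.mem_cons_of_mem _ hQ', e2⟩⟩
            rcases List.mem_cons.1 hC' with rfl | hC'
            · exact ⟨C, by simp, e1.trans (by rw [h1]; exact (List.suffix_append Q C').isInfix)⟩
            · exact ⟨C', List.mem_cons_of_mem _ hC', e1⟩

theorem refine_two {β : Type*} (Cs Qs : List (List β)) (h : Cs.flatten = Qs.flatten) :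
    ∃ Rs : List (List β), Rs.flatten = Cs.flatten ∧ Rs.length ≤ Cs.length + Qs.length ∧
      ∀ R ∈ Rs, (∃ C ∈ Cs, R <:+: C) ∧ ∃ Q ∈ Qs, R <:+: Q :=
  Pl_refine _ Cs Qs le_rfl h

private theorem Pl_last {β : Type*} (p : β → Prop) : ∀ X : List β, (∃ l ∈ X, p l) →
    ∃ (Y : List β) (l : β) (X' : List β), X = Y ++ l :: X' ∧ p l ∧ ∀ l' ∈ X', ¬ p l' := by
  intro X
  induction X with
  | nil =>
    rintro ⟨l, hl, _⟩
    simp at hl
  | cons a X ih =>
    intro h
    by_cases h' : ∃ l ∈ X, p l
    · obtain ⟨Y, l, X', e, hl, hX'⟩ := ih h'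
      exact ⟨a :: Y, l, X', by rw [e, List.cons_append], hl, hX'⟩
    · obtain ⟨l, hl, hp⟩ := h
      rcases List.mem_cons.1 hl with rfl | hl
      · exact ⟨[], l, X, rfl, hp, fun l' hl' hp' => h' ⟨l', hl', hp'⟩⟩
      · exact absurd ⟨l, hl, hp⟩ h'

private theorem Pl_sub {α β : Type*} {occ : β → α → Prop} {ss ss' : List α} {X : List β}
    (h : List.Sublist ss' ss) (hX : Srt occ ss X) : Srt occ ss' X :=
  List.Pairwise.imp (fun {_ _} H s s' h1 h2 h3 => H s s' h1 h2 (h3.trans h)) hX

theorem pieces {α β : Type*} (occ : β → α → Prop) (ss : List α) (hss : ss.Nodup) (X : List β)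
    (hind : ∀ l ∈ X, ∀ s ∈ ss, ∀ s' ∈ ss, occ l s → occ l s' → s = s') (h : Srt occ ss X) :
    ∃ (P : α → List β) (T : List β), X = (ss.map P).flatten ++ T ∧
      (∀ s ∈ ss, ∀ l ∈ P s, ∀ s' ∈ ss, occ l s' → s' = s) ∧
      ∀ l ∈ T, ∀ s ∈ ss, ¬ occ l s := by
  classical
  induction ss generalizing X with
  | nil => exact ⟨fun _ => [], X, by simp, by simp, by simp⟩
  | cons s ss ih =>
    obtain ⟨hs, hss'⟩ := List.nodup_cons.1 hss
    -- the general step
    have key : ∀ (Y X' : List β), X = Y ++ X' → (∀ l ∈ X', ¬ occ l s) →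
        (∀ l ∈ Y, ∀ s' ∈ s :: ss, occ l s' → s' = s) → Srt occ ss X' →
        ∃ (P : α → List β) (T : List β), X = ((s :: ss).map P).flatten ++ T ∧
          (∀ s₁ ∈ s :: ss, ∀ l ∈ P s₁, ∀ s' ∈ s :: ss, occ l s' → s' = s₁) ∧
          ∀ l ∈ T, ∀ s₁ ∈ s :: ss, ¬ occ l s₁ := by
      intro Y X' hX hno hY hsrt
      obtain ⟨P, T, e, h1, h2⟩ := ih hss' X' (fun l hl a ha b hb => hind l
        (by rw [hX]; exact List.mem_append_right _ hl) a (List.mem_cons_of_mem _ ha) b
        (List.mem_cons_of_mem _ hb)) hsrt
      have hmap : ss.map (fun a => if a = s then Y else P a) = ss.map P := by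
        apply List.map_congr_left
        intro a ha
        have : a ≠ s := fun h => hs (h ▸ ha)
        rw [if_neg this]
      refine ⟨fun a => if a = s then Y else P a, T, ?_, ?_, ?_⟩
      · rw [List.map_cons, List.flatten_cons, hmap, if_pos rfl, hX, e, List.append_assoc]
      · intro s₁ hs₁ l hl s' hs' hocc
        by_cases hc : s₁ = s
        · subst hc
          simp only [if_true] at hl
          exact hY l hl s' hs' hocc
        · have hs₁' : s₁ ∈ ss := (List.mem_cons.1 hs₁).resolve_left hc
          simp only [if_neg hc] at hl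
          have hlX : l ∈ X' := by
            rw [e]
            apply List.mem_append_left
            rw [List.mem_flatten]
            exact ⟨P s₁, List.mem_map.2 ⟨s₁, hs₁', rfl⟩, hl⟩
          rcases List.mem_cons.1 hs' with rfl | hs''
          · exact absurd hocc (hno l hlX)
          · exact h1 s₁ hs₁' l hl s' hs'' hocc
      · intro l hl s₁ hs₁ hocc
        have hlX : l ∈ X' := by
          rw [e]
          exact List.mem_append_right _ hl
        rcases List.mem_cons.1 hs₁ with rfl | hs''
        · exact hno l hlX hocc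
        · exact h2 l hl s₁ hs'' hocc
    by_cases hex : ∃ l ∈ X, occ l s
    · obtain ⟨Y, l₀, X', e, hl₀, hno⟩ := Pl_last (fun l => occ l s) X hex
      refine key (Y ++ [l₀]) X' (by rw [e, List.append_assoc]; rfl) hno ?_ ?_
      · intro l hl s' hs' hocc
        rcases List.mem_append.1 hl with hl | hl
        · by_contra hne
          have hs'' : s' ∈ ss := (List.mem_cons.1 hs').resolve_left hne
          unfold Srt at h
          rw [e, List.pairwise_append] at h
          refine h.2.2 l hl l₀ (by simp) s' s hocc hl₀ ?_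
          exact List.Sublist.cons_cons s (List.singleton_sublist.2 hs'')
        · rw [List.mem_singleton] at hl
          subst hl
          exact hind l (by rw [e]; simp) s' hs' s (by simp) hocc hl₀
      · unfold Srt at h
        rw [e, List.pairwise_append, List.pairwise_cons] at h
        exact Pl_sub (List.sublist_cons_self s ss) h.2.1.2
    · exact key [] X rfl (fun l hl ho => hex ⟨l, hl, ho⟩) (by simp)
        (Pl_sub (List.sublist_cons_self s ss) h)

theorem srt_infix {α β : Type*} (occ : β → α → Prop) (ss : List α) {X Y : List β} (h : Y <:+: X)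
    (hX : Srt occ ss X) : Srt occ ss Y :=
  List.Pairwise.sublist h.sublist hX

end Pool.Agent.RKO
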