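import Pool.Agent.RKO.Defs
import Pool.Agent.UNK.Zar

/-!
Project RKO (MP_e2be99_lc), module Wo.  Text: /team-store/rko_h34.md (section 1, words).
Definitions in `Pool/Agent/RKO/Defs.lean` (and `UNK/Defs.lean`).

Simple facts on words, points, independence.
-/

set_option autoImplicit false

namespace Pool.Agent.RKO

open MvPolynomial
open Pool.Agent.UNK (zar PF dot tp fc Fc)

universe u

section

variable {k : Type u} [Field k] {V : Type} {w : ℕ}

theorem wv_nil (x : V → k) : wv ([] : List (Letter k V w)) x = 1 := by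
  simp [wv]

theorem wv_append (W W' : List (Letter k V w)) (x : V → k) :
    wv (W ++ W') x = wv W x * wv W' x := by
  simp [wv]

theorem wv_flatten (Ws : List (List (Letter k V w))) (x : V → k) :
    wv Ws.flatten x = (Ws.map fun W => wv W x).prod := by
  induction Ws with
  | nil => simp [wv]
  | cons W Ws ih =>
    rw [List.flatten_cons, wv_append, ih, List.map_cons, List.prod_cons]

theorem wv_congr (W : List (Letter k V w)) {x y : V → k}
    (h : ∀ l ∈ W, ∀ u ∈ l.B, x u = y u) : wv W x = wv W y := by
  unfold wv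
  congr 1
  exact List.map_congr_left fun l hl => l.dep x y (h l hl)

theorem wv_pf (W : List (Letter k V w)) (p q : Fin w) : PF (fun x : V → k => wv W x p q) := by
  induction W generalizing p q with
  | nil =>
    simp only [wv_nil]
    exact PF.const _
  | cons l W ih =>
    have h1 : (fun x : V → k => wv (l :: W) x p q) = fun x => (l.f x * wv W x) p q := by
      funext x
      simp [wv]
    rw [h1]
    exact PF.mmul l.pf ih p q

theorem wv_pt_pf (W : List (Letter k V w)) (Y : Finset V) (v : V → k) (p q : Fin w) :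
    PF (fun a : V → k => wv W (pt Y a v) p q) := by
  classical
  refine PF.comp (wv_pf W p q) (g := fun a => pt Y a v) fun i => ?_
  by_cases h : i ∈ Y
  · have h1 : (fun a : V → k => pt Y a v i) = fun a => a i := by
      funext a
      simp [pt, h]
    rw [h1]
    exact PF.coord i
  · have h1 : (fun a : V → k => pt Y a v i) = fun _ => v i := by
      funext a
      simp [pt, h]
    rw [h1]
    exact PF.const _

theorem indep (W : List (Letter k V w)) (ρ b : ℕ) (hr : ∀ u, reads W u ≤ ρ)
    (hB : ∀ l ∈ W, l.B.card ≤ b) (S : Finset V) (q : ℕ) (h : q * (ρ * b + 1) ≤ S.card) :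
    ∃ S₁ : Finset V, S₁ ⊆ S ∧ S₁.card = q ∧
      ∀ l ∈ W, ∀ s ∈ S₁, ∀ s' ∈ S₁, s ∈ l.B → s' ∈ l.B → s = s' := by
  classical
  induction q generalizing S with
  | zero => exact ⟨∅, Finset.empty_subset _, rfl, fun _ _ s hs => absurd hs (Finset.notMem_empty s)⟩
  | succ q ih =>
    have h0 : 0 < S.card := lt_of_lt_of_le (Nat.mul_pos (Nat.succ_pos q) (Nat.succ_pos _)) h
    obtain ⟨s, hs⟩ := Finset.card_pos.1 h0
    set T : Finset V := (W.filter (fun l => s ∈ l.B)).toFinset.biUnion Letter.B with hT
    have hTc : T.card ≤ ρ * b := by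
      refine (Finset.card_biUnion_le_card_mul _ _ b fun l hl => ?_).trans ?_
      · rw [List.mem_toFinset, List.mem_filter] at hl
        exact hB l hl.1
      · refine Nat.mul_le_mul_right b ((List.toFinset_card_le _).trans ?_)
        have h1 := hr s
        unfold reads at h1
        refine le_of_eq_of_le (congrArg List.length (List.filter_congr fun l _ => ?_)) h1
        exact decide_eq_decide.2 Iff.rfl
    have hc : q * (ρ * b + 1) ≤ (S \ insert s T).card := by
      have h1 : (insert s T).card ≤ ρ * b + 1 := (Finset.card_insert_le s T).trans (by omega)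
      have h2 := Finset.le_card_sdiff (insert s T) S
      have h3 : (q + 1) * (ρ * b + 1) = q * (ρ * b + 1) + (ρ * b + 1) := by ring
      omega
    obtain ⟨S₁, hS₁, hcard, hind⟩ := ih (S \ insert s T) hc
    have hsn : s ∉ S₁ := fun hs1 => by
      have h1 := hS₁ hs1
      rw [Finset.mem_sdiff] at h1
      exact h1.2 (Finset.mem_insert_self s T)
    have hTn : ∀ s' ∈ S₁, s' ∉ T := fun s' hs' hT' => by
      have h1 := hS₁ hs'
      rw [Finset.mem_sdiff] at h1
      exact h1.2 (Finset.mem_insert_of_mem hT')
    have hmT : ∀ l ∈ W, ∀ s', s ∈ l.B → s' ∈ l.B → s' ∈ T := fun l hl s' h1 h2 => by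
      rw [hT, Finset.mem_biUnion]
      exact ⟨l, by rw [List.mem_toFinset, List.mem_filter]; exact ⟨hl, by simpa using h1⟩, h2⟩
    refine ⟨insert s S₁, ?_, ?_, ?_⟩
    · intro x hx
      rcases Finset.mem_insert.1 hx with h1 | h1
      · rw [h1]
        exact hs
      · exact (Finset.mem_sdiff.1 (hS₁ h1)).1
    · rw [Finset.card_insert_of_notMem hsn, hcard]
    · intro l hl s₁ hs₁ s₂ hs₂ h1 h2
      rcases Finset.mem_insert.1 hs₁ with h3 | h3 <;> rcases Finset.mem_insert.1 hs₂ with h4 | h4
      · rw [h3, h4]
      · rw [h3] at h1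
        exact absurd (hmT l hl s₂ h1 h2) (hTn s₂ h4)
      · rw [h4] at h2
        exact absurd (hmT l hl s₁ h2 h1) (hTn s₁ h3)
      · exact hind l hl s₁ h3 s₂ h4 h1 h2

end

end Pool.Agent.RKO
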