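import Pool.Agent.RKO.Tf
import Pool.Agent.RKO.Lc
import Pool.Agent.RKO.Pl
import Pool.Agent.RKO.Wo

/-!
Project RKO (MP_e2be99_lc), module Mc.  Text: /team-store/rko_h34.md (section 4, critical sets for monotone words).
Definitions in `Pool/Agent/RKO/Defs.lean` (and `UNK/Defs.lean`).

Every word `R i` is cut into pieces `P i s` in which only the variable `s` of `ss` occurs (`pieces`), in the order of
`ss` or of `ss.reverse` (`D i`).  After transposing the coordinates in `D` the value at `pt (Y₀ ∪ T) a v` is a linear
functional of a product over `ss` of matrices which depend on `s ∈ T` only, and `lemC'` applies.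
-/

set_option autoImplicit false

namespace Pool.Agent.RKO

open MvPolynomial
open Pool.Agent.UNK (zar PF dot tp fc Fc)

universe u

private theorem Mc_dot_mul {k : Type u} [Field k] {I : Type} [Fintype I] (Φ M N : Matrix I I k) :
    dot Φ (M * N) = dot (Φ * N.transpose) M := by
  unfold dot
  simp only [Matrix.mul_apply, Finset.mul_sum, Finset.sum_mul, Matrix.transpose_apply]
  refine Finset.sum_congr rfl fun p _ => ?_
  rw [Finset.sum_comm]
  refine Finset.sum_congr rfl fun r _ => Finset.sum_congr rfl fun q _ => ?_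
  ring

/-- the functional given by a matrix -/
private def Mc_lin {k : Type u} [Field k] {I : Type} [Fintype I] (Φ : Matrix I I k) :
    Matrix I I k →ₗ[k] k where
  toFun M := dot Φ M
  map_add' M N := by
    unfold dot
    simp only [Matrix.add_apply, mul_add, Finset.sum_add_distrib]
  map_smul' c M := by
    unfold dot
    simp only [Matrix.smul_apply, smul_eq_mul, RingHom.id_apply, Finset.mul_sum]
    refine Finset.sum_congr rfl fun p _ => Finset.sum_congr rfl fun q _ => ?_
    ring

private theorem Mc_tf_prod {k : Type u} [Field k] {κ : Type} [Fintype κ] [DecidableEq κ] {I : Type}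
    [Fintype I] [DecidableEq I] {V : Type} (h : κ → V → Matrix I I k) (l : List V) :
    tf (fun i => (l.map (h i)).prod) = (l.map fun s => tf fun i => h i s).prod := by
  induction l with
  | nil => simpa using tf_one (k := k) (κ := κ) (I := I)
  | cons s l ih =>
    simp only [List.map_cons, List.prod_cons]
    rw [tf_mul, ih]

private theorem Mc_transpose {k : Type u} [Field k] {I : Type} [Fintype I] [DecidableEq I] {V : Type}
    (h : V → Matrix I I k) (l : List V) :
    ((l.reverse.map h).prod).transpose = (l.map fun s => (h s).transpose).prod := by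
  rw [Matrix.transpose_list_prod, List.map_map, List.map_reverse, List.reverse_reverse]
  rfl

private theorem Mc_infix {α β : Type*} (P : α → List β) {J l : List α} (h : J <:+: l) :
    (J.map P).flatten <:+: (l.map P).flatten := by
  obtain ⟨s, t, rfl⟩ := h
  refine ⟨(s.map P).flatten, (t.map P).flatten, ?_⟩
  simp

private theorem Mc_pt {k : Type u} [Field k] {V : Type} (v a : V → k) (A B : Finset V) (u : V)
    (h : u ∈ A ↔ u ∈ B) : pt A a v u = pt B a v u := by
  unfold pt
  by_cases hu : u ∈ A
  · rw [if_pos hu, if_pos (h.1 hu)]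
  · rw [if_neg hu, if_neg (fun hb => hu (h.2 hb))]

open scoped Classical in
private theorem Mc_val {k : Type u} [Field k] {V : Type} {w : ℕ} (v a : V → k) (ss : List V)
    (Y₀ : Finset V) (W : List (Letter k V w)) (s : V) (hs : s ∈ ss)
    (hW : ∀ l ∈ W, ∀ s' ∈ ss, s' ∈ l.B → s' = s) (S : Set V) :
    wv W (pt (Y₀ ∪ ss.toFinset.filter (fun x => x ∈ S)) a v) =
      if s ∈ S then wv W (pt (Y₀ ∪ {s}) a v) else wv W (pt Y₀ a v) := by
  by_cases hS : s ∈ S
  · rw [if_pos hS]
    refine wv_congr W fun l hl u hu => Mc_pt v a _ _ u ?_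
    simp only [Finset.mem_union, Finset.mem_filter, List.mem_toFinset, Finset.mem_singleton]
    constructor
    · rintro (h | ⟨h, -⟩)
      · exact Or.inl h
      · exact Or.inr (hW l hl u h hu)
    · rintro (h | h)
      · exact Or.inl h
      · exact Or.inr ⟨h ▸ hs, h ▸ hS⟩
  · rw [if_neg hS]
    refine wv_congr W fun l hl u hu => Mc_pt v a _ _ u ?_
    simp only [Finset.mem_union, Finset.mem_filter, List.mem_toFinset]
    constructor
    · rintro (h | ⟨h, h'⟩)
      · exact h
      · exact absurd (hW l hl u h hu ▸ h') hS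
    · exact fun h => Or.inl h

open scoped Classical in
private theorem Mc_out {k : Type u} [Field k] {V : Type} {w : ℕ} (v a : V → k) (ss : List V)
    (Y₀ : Finset V) (W : List (Letter k V w)) (hW : ∀ l ∈ W, ∀ s ∈ ss, s ∉ l.B) (S : Set V) :
    wv W (pt (Y₀ ∪ ss.toFinset.filter (fun x => x ∈ S)) a v) = wv W (pt Y₀ a v) := by
  refine wv_congr W fun l hl u hu => Mc_pt v a _ _ u ?_
  simp only [Finset.mem_union, Finset.mem_filter, List.mem_toFinset]
  constructor
  · rintro (h | ⟨h, -⟩)
    · exact h
    · exact absurd hu (hW l hl u h)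
  · exact fun h => Or.inl h

open scoped Classical in
theorem mcl {k : Type u} [Field k] {V : Type} {w : ℕ} {κ : Type} [Fintype κ] [DecidableEq κ]
    (R : κ → List (Letter k V w)) (v a : V → k) (ss : List V) (hss : ss.Nodup)
    (hrk : ∀ i, ∀ J : List (Letter k V w), J <:+: R i → ∀ Y : Finset V,
      (wv J (pt Y a v)).rank = (wv J v).rank)
    (hind : ∀ i, ∀ l ∈ R i, ∀ s ∈ ss, ∀ s' ∈ ss, s ∈ l.B → s' ∈ l.B → s = s')
    (hs : ∀ i, Srt (fun (l : Letter k V w) (s : V) => s ∈ l.B) ss (R i) ∨
      Srt (fun (l : Letter k V w) (s : V) => s ∈ l.B) ss.reverse (R i))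
    (Φ : Matrix (κ → Fin w) (κ → Fin w) k) (Y₀ : Finset V) (hY : ∀ s ∈ ss, s ∉ Y₀)
    (h1 : dot Φ (tf fun i => wv (R i) (pt (Y₀ ∪ ss.toFinset) a v)) ≠ 0)
    (h0 : ∀ T : Finset V, T ⊂ ss.toFinset →
      dot Φ (tf fun i => wv (R i) (pt (Y₀ ∪ T) a v)) = 0) :
    ss.length ≤ fc (w ^ Fintype.card κ) := by
  obtain ⟨D, hDd⟩ : ∃ D : κ → Prop, ∀ i, D i ↔
      ¬ Srt (fun (l : Letter k V w) (s : V) => s ∈ l.B) ss (R i) := ⟨_, fun i => Iff.rfl⟩
  have key : ∀ i, ∃ (P : V → List (Letter k V w)) (T : List (Letter k V w)),
      R i = ((if D i then ss.reverse else ss).map P).flatten ++ T ∧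
      (∀ s ∈ ss, ∀ l ∈ P s, ∀ s' ∈ ss, s' ∈ l.B → s' = s) ∧ ∀ l ∈ T, ∀ s ∈ ss, s ∉ l.B := by
    intro i
    by_cases hD : D i
    · rw [if_pos hD]
      have h2 : Srt (fun (l : Letter k V w) (s : V) => s ∈ l.B) ss.reverse (R i) :=
        (hs i).resolve_left ((hDd i).1 hD)
      obtain ⟨P, T, a1, a2, a3⟩ := pieces _ ss.reverse (List.nodup_reverse.2 hss) (R i)
        (fun l hl s hs s' hs' => hind i l hl s (List.mem_reverse.1 hs) s' (List.mem_reverse.1 hs')) h2
      exact ⟨P, T, a1, fun s hs l hl s' hs' => a2 s (List.mem_reverse.2 hs) l hl s'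
        (List.mem_reverse.2 hs'), fun l hl s hs => a3 l hl s (List.mem_reverse.2 hs)⟩
    · rw [if_neg hD]
      obtain ⟨P, T, a1, a2, a3⟩ := pieces _ ss hss (R i) (hind i)
        (not_not.1 fun hn => hD ((hDd i).2 hn))
      exact ⟨P, T, a1, a2, a3⟩
  choose P T hR hP hT using key
  let G : κ → V → Matrix (Fin w) (Fin w) k := fun i s => wv (P i s) (pt (Y₀ ∪ {s}) a v)
  let B : κ → V → Matrix (Fin w) (Fin w) k := fun i s => wv (P i s) (pt Y₀ a v)
  let Cc : κ → Matrix (Fin w) (Fin w) k := fun i => wv (T i) (pt Y₀ a v)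
  let h : Set V → κ → V → Matrix (Fin w) (Fin w) k := fun S i s => if s ∈ S then G i s else B i s
  have hval : ∀ (S : Set V) (i : κ) (l : List V), (∀ s ∈ l, s ∈ ss) →
      wv (l.map (P i)).flatten (pt (Y₀ ∪ ss.toFinset.filter (fun x => x ∈ S)) a v) =
        (l.map (h S i)).prod := by
    intro S i l hl
    rw [wv_flatten, List.map_map]
    refine congrArg List.prod (List.map_congr_left fun s hs => ?_)
    exact Mc_val v a ss Y₀ (P i s) s (hl s hs) (hP i s (hl s hs)) S
  have hlst : ∀ i, ∀ s ∈ (if D i then ss.reverse else ss), s ∈ ss := by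
    intro i s hs
    split_ifs at hs
    · exact List.mem_reverse.1 hs
    · exact hs
  have hRv : ∀ (S : Set V) (i : κ),
      wv (R i) (pt (Y₀ ∪ ss.toFinset.filter (fun x => x ∈ S)) a v) =
        ((if D i then ss.reverse else ss).map (h S i)).prod * Cc i := by
    intro S i
    have e1 : wv (R i) (pt (Y₀ ∪ ss.toFinset.filter (fun x => x ∈ S)) a v) =
        wv (((if D i then ss.reverse else ss).map (P i)).flatten ++ T i)
          (pt (Y₀ ∪ ss.toFinset.filter (fun x => x ∈ S)) a v) :=
      congrArg (fun W => wv W (pt (Y₀ ∪ ss.toFinset.filter (fun x => x ∈ S)) a v)) (hR i)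
    rw [e1, wv_append, hval S i _ (hlst i), Mc_out v a ss Y₀ (T i) (hT i) S]
  obtain ⟨Φ', hΦ'⟩ := tf_transpose D (Φ * (tf Cc).transpose)
  let g : V → Matrix (κ → Fin w) (κ → Fin w) k := fun s =>
    tf fun i => if D i then (G i s).transpose else G i s
  let b : V → Matrix (κ → Fin w) (κ → Fin w) k := fun s =>
    tf fun i => if D i then (B i s).transpose else B i s
  have hgb : ∀ (S : Set V) (l : List V),
      (l.map fun x => if x ∈ S then g x else b x).prod =
        tf fun i => (l.map fun s => if D i then (h S i s).transpose else h S i s).prod := by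
    intro S l
    rw [Mc_tf_prod (fun i s => if D i then (h S i s).transpose else h S i s) l]
    refine congrArg List.prod (List.map_congr_left fun s _ => ?_)
    by_cases hs : s ∈ S
    · simp only [h, g, if_pos hs]
    · simp only [h, b, if_neg hs]
  have hcase : ∀ (S : Set V) (l : List V) (i : κ),
      (l.map fun s => if D i then (h S i s).transpose else h S i s).prod =
        if D i then (((if D i then l.reverse else l).map (h S i)).prod).transpose
        else ((if D i then l.reverse else l).map (h S i)).prod := by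
    intro S l i
    by_cases hD : D i
    · simp only [if_pos hD]
      exact (Mc_transpose (h S i) l).symm
    · simp only [if_neg hD]
  have hΨ : ∀ S : Set V, Mc_lin Φ' ((ss.map fun x => if x ∈ S then g x else b x).prod) =
      dot Φ (tf fun i => wv (R i) (pt (Y₀ ∪ ss.toFinset.filter (fun x => x ∈ S)) a v)) := by
    intro S
    have e1 : Mc_lin Φ' ((ss.map fun x => if x ∈ S then g x else b x).prod) =
        dot Φ' (tf fun i => if D i then (((if D i then ss.reverse else ss).map (h S i)).prod).transpose
          else ((if D i then ss.reverse else ss).map (h S i)).prod) := by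
      show dot Φ' _ = _
      rw [hgb S ss]
      refine congrArg (fun M => dot Φ' (tf M)) (funext fun i => ?_)
      exact hcase S ss i
    rw [e1, ← hΦ' (fun i => ((if D i then ss.reverse else ss).map (h S i)).prod), ← Mc_dot_mul,
      ← tf_mul]
    refine congrArg (fun M => dot Φ (tf M)) (funext fun i => ?_)
    exact (hRv S i).symm
  have hc : Fintype.card (κ → Fin w) = w ^ Fintype.card κ := by simp
  rw [← hc]
  refine lemC' b g ss hss (Mc_lin Φ') ?_ ?_ ?_
  · have hr : ∀ J' : List V, J' <:+: ss → ∀ S : Set V,
        ((J'.map fun x => if x ∈ S then g x else b x).prod).rank =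
          ∏ i, (wv ((if D i then J'.reverse else J').map (P i)).flatten v).rank := by
      intro J' hJ S
      rw [hgb S J', tf_rank]
      refine Finset.prod_congr rfl fun i _ => ?_
      have hsub : ∀ s ∈ (if D i then J'.reverse else J'), s ∈ ss := by
        intro s hs
        split_ifs at hs
        · exact hJ.subset (List.mem_reverse.1 hs)
        · exact hJ.subset hs
      have hinf : ((if D i then J'.reverse else J').map (P i)).flatten <:+: R i := by
        have i1 : (if D i then J'.reverse else J') <:+: (if D i then ss.reverse else ss) := by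
          split_ifs
          · exact List.reverse_infix.2 hJ
          · exact hJ
        have i2 := Mc_infix (P i) i1
        have i3 : ((if D i then ss.reverse else ss).map (P i)).flatten <:+: R i := by
          have i4 : ((if D i then ss.reverse else ss).map (P i)).flatten <:+:
              ((if D i then ss.reverse else ss).map (P i)).flatten ++ T i :=
            (List.prefix_append _ _).isInfix
          rwa [← hR i] at i4
        exact i2.trans i3
      have h5 := hrk i _ hinf (Y₀ ∪ ss.toFinset.filter (fun x => x ∈ S))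
      rw [hval S i _ hsub] at h5
      rw [hcase S J' i, ← h5]
      by_cases hD : D i
      · simp only [if_pos hD]
        exact Matrix.rank_transpose _
      · simp only [if_neg hD]
    intro J' hJ S S'
    rw [hr J' hJ S, hr J' hJ S']
  · obtain ⟨S, hS⟩ : ∃ S : Set V, ∀ x, x ∈ S := ⟨Set.univ, Set.mem_univ⟩
    have h2 := hΨ S
    have h3 : ss.toFinset.filter (fun x => x ∈ S) = ss.toFinset :=
      Finset.filter_true_of_mem fun x _ => hS x
    rw [h3] at h2
    have h4 : (ss.map fun x => if x ∈ S then g x else b x) = ss.map g :=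
      List.map_congr_left fun s _ => if_pos (hS s)
    rw [h4] at h2
    rw [h2]
    exact h1
  · rintro S ⟨x, hx, hxS⟩
    have h2 := hΨ S
    have h3 : ss.toFinset.filter (fun x => x ∈ S) ⊂ ss.toFinset :=
      Finset.filter_ssubset.2 ⟨x, List.mem_toFinset.2 hx, hxS⟩
    rw [h0 _ h3] at h2
    exact h2

end Pool.Agent.RKO
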