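import Pool.Agent.RKO.Defs
import Pool.Agent.UNK.Tp

/-!
Project RKO (MP_e2be99_lc), module Tf.  Text: /team-store/rko_h34.md (section 1, tensor products of families).
Definitions in `Pool/Agent/RKO/Defs.lean` (and `UNK/Defs.lean`).  Public statements as in the skeleton;
helper lemmas private.

PLAN.
* `tf_mul`: `∏ i, ∑ j, .. = ∑ f, ∏ i, ..` (`Finset.prod_univ_sum`, `Fintype.piFinset_univ`), as in `UNK.tp_mul`.
* `tf_rank`: `≤`: `M i = C i * R i` through `Fin (rank (M i))` (`UNK.fac_le`); the tensor product of rectangular matrices with inner types depending on `i` (dependent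
  product type `(i : κ) → Fin (r i)`, of cardinality `∏ r i`); `≥`: `UNK.fac_ge`, `U i * M i * W i = 1`, tensor product is 1 on `(i : κ) → Fin (r i)`.
  (Define a private dependent version of `tf`.)
* `tf_transpose`: entries: `(M i)ᵀ p q = M i q p`: `Φ'` is `Φ` with the coordinates in `D` exchanged between row and column index.
* `prod_dot`: entry `(f, f')` of `tp g (X 0 * .. * X (m-1))` is a sum over paths of products of entries `X j (P (i, j)) (P' (i, j))`: induction on `m`, or directly; it is enough to show that each entry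
  is a linear functional of `tf ..` (then sum).  Possibly: for `m + 1`: `tp g (X 0 * Y) = tp g (X 0) * tp g Y`.
* `dot_tp_one`: `tp 1 M` has the entries `M (f 0) (f' 0)`.
-/

set_option autoImplicit false

namespace Pool.Agent.RKO

open MvPolynomial
open Pool.Agent.UNK (zar PF dot tp fc Fc)

universe u

section dep

variable {k : Type u} [Field k] {κ : Type} [Fintype κ] [DecidableEq κ]

/-- tensor product of a family of matrices with index types depending on the factor -/
private def tfd {α β : κ → Type} (M : (i : κ) → Matrix (α i) (β i) k) :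
    Matrix ((i : κ) → α i) ((i : κ) → β i) k :=
  Matrix.of fun f f' => ∏ i, M i (f i) (f' i)

private theorem tfd_mul {α β γ : κ → Type} [∀ i, Fintype (β i)]
    (M : (i : κ) → Matrix (α i) (β i) k) (N : (i : κ) → Matrix (β i) (γ i) k) :
    tfd (fun i => M i * N i) = tfd M * tfd N := by
  ext f f'
  show ∏ i, (M i * N i) (f i) (f' i) = (tfd M * tfd N) f f'
  rw [Matrix.mul_apply]
  have h1 : ∀ i, (M i * N i) (f i) (f' i) = ∑ j : β i, M i (f i) j * N i j (f' i) :=
    fun i => Matrix.mul_apply
  rw [Finset.prod_congr rfl fun i _ => h1 i, Finset.prod_univ_sum, Fintype.piFinset_univ]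
  refine Finset.sum_congr rfl fun g _ => ?_
  rw [Finset.prod_mul_distrib]
  rfl

private theorem tfd_one {α : κ → Type} [∀ i, DecidableEq (α i)] :
    tfd (fun i => (1 : Matrix (α i) (α i) k)) = 1 := by
  ext f f'
  show ∏ i, (1 : Matrix (α i) (α i) k) (f i) (f' i) = (1 : Matrix _ _ k) f f'
  by_cases h : f = f'
  · subst h
    rw [Matrix.one_apply_eq]
    exact Finset.prod_eq_one fun i _ => Matrix.one_apply_eq _
  · rw [Matrix.one_apply_ne h]
    obtain ⟨i, hi⟩ := Function.ne_iff.mp h
    exact Finset.prod_eq_zero (Finset.mem_univ i) (Matrix.one_apply_ne hi)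

end dep

section

variable {k : Type u} [Field k] {κ : Type} [Fintype κ] [DecidableEq κ] {I : Type} [Fintype I]
  [DecidableEq I]

theorem tf_mul (M N : κ → Matrix I I k) : tf (fun i => M i * N i) = tf M * tf N :=
  tfd_mul M N

theorem tf_one : tf (fun _ : κ => (1 : Matrix I I k)) = 1 :=
  tfd_one (κ := κ) (α := fun _ => I)

theorem tf_rank (M : κ → Matrix I I k) : (tf M).rank = ∏ i, (M i).rank := by
  have hcard : Fintype.card ((i : κ) → Fin (M i).rank) = ∏ i, (M i).rank := by
    rw [Fintype.card_pi]
    exact Finset.prod_congr rfl fun i _ => Fintype.card_fin _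
  apply le_antisymm
  · have h1 := fun i => Pool.Agent.UNK.fac_le (le_refl (M i).rank)
    choose C R hCR using h1
    have h2 : tf M = tfd C * tfd R := by
      rw [← tfd_mul]
      show tf M = tf fun i => C i * R i
      congr 1
      exact funext hCR
    rw [h2, ← hcard]
    exact (Matrix.rank_mul_le_left _ _).trans (Matrix.rank_le_card_width _)
  · have h1 := fun i => Pool.Agent.UNK.fac_ge (le_refl (M i).rank)
    choose U W hUW using h1
    have h2 : tfd U * tf M * tfd W = 1 := by
      have h3 : tf M = tfd M := rfl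
      rw [h3, ← tfd_mul, ← tfd_mul, funext hUW]
      exact tfd_one (κ := κ) (α := fun i => Fin (M i).rank)
    have h4 : (tfd U * tf M * tfd W).rank = ∏ i, (M i).rank := by
      rw [h2, Matrix.rank_one, hcard]
    calc ∏ i, (M i).rank = (tfd U * tf M * tfd W).rank := h4.symm
      _ ≤ (tfd U * tf M).rank := Matrix.rank_mul_le_left _ _
      _ ≤ (tf M).rank := Matrix.rank_mul_le_right _ _

open scoped Classical in
theorem tf_transpose (D : κ → Prop) (Φ : Matrix (κ → I) (κ → I) k) :
    ∃ Φ' : Matrix (κ → I) (κ → I) k, ∀ M : κ → Matrix I I k,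
      dot Φ (tf M) = dot Φ' (tf fun i => if D i then (M i).transpose else M i) := by
  have hinv : Function.Involutive (fun x : (κ → I) × (κ → I) =>
      ((fun i => if D i then x.2 i else x.1 i : κ → I),
        (fun i => if D i then x.1 i else x.2 i : κ → I))) := by
    rintro ⟨p, q⟩
    refine Prod.ext (funext fun i => ?_) (funext fun i => ?_)
    · by_cases h : D i
      · simp only [if_pos h]
      · simp only [if_neg h]
    · by_cases h : D i
      · simp only [if_pos h]
      · simp only [if_neg h]
  refine ⟨Matrix.of fun p q => Φ (fun i => if D i then q i else p i)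
    (fun i => if D i then p i else q i), fun M => ?_⟩
  unfold dot
  rw [← Fintype.sum_prod_type' (f := fun p q => Φ p q * tf M p q),
    ← Fintype.sum_prod_type', ← Equiv.sum_comp (hinv.toPerm _)]
  refine Finset.sum_congr rfl fun x _ => ?_
  obtain ⟨p, q⟩ := x
  have h1 : tf M (fun i => if D i then q i else p i) (fun i => if D i then p i else q i) =
      tf (fun i => if D i then (M i).transpose else M i) p q := by
    refine Finset.prod_congr rfl fun i _ => ?_
    by_cases h : D i
    · simp only [if_pos h, Matrix.transpose_apply]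
    · simp only [if_neg h]
  show Φ _ _ * tf M (fun i => if D i then q i else p i) (fun i => if D i then p i else q i) =
    Φ _ _ * tf (fun i => if D i then (M i).transpose else M i) p q
  rw [h1]
  rfl

/-- functions given by a functional of the tensor product -/
private def SF (k : Type u) [Field k] (I : Type) [Fintype I] (g m : ℕ)
    (F : (Fin m → Matrix I I k) → k) : Prop :=
  ∃ Φ : Matrix (Fin g × Fin m → I) (Fin g × Fin m → I) k, ∀ X : Fin m → Matrix I I k,
    F X = dot Φ (tf fun ij : Fin g × Fin m => X ij.2)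

omit [DecidableEq I] in
private theorem SF_sum {g m : ℕ} {σ : Type} (s : Finset σ)
    (F : σ → (Fin m → Matrix I I k) → k) (h : ∀ a, SF k I g m (F a)) :
    SF k I g m (fun X => ∑ a ∈ s, F a X) := by
  choose Φ hΦ using h
  refine ⟨∑ a ∈ s, Φ a, fun X => ?_⟩
  show ∑ a ∈ s, F a X = _
  rw [Finset.sum_congr rfl fun a _ => hΦ a X]
  unfold dot
  rw [Finset.sum_comm]
  refine Finset.sum_congr rfl fun p _ => ?_
  rw [Finset.sum_comm]
  refine Finset.sum_congr rfl fun q _ => ?_
  rw [Matrix.sum_apply, Finset.sum_mul]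

omit [DecidableEq I] in
private theorem SF_smul {g m : ℕ} (c : k) (F : (Fin m → Matrix I I k) → k)
    (h : SF k I g m F) : SF k I g m (fun X => c * F X) := by
  obtain ⟨Φ, hΦ⟩ := h
  refine ⟨c • Φ, fun X => ?_⟩
  show c * F X = _
  rw [hΦ]
  unfold dot
  rw [Finset.mul_sum]
  refine Finset.sum_congr rfl fun p _ => ?_
  rw [Finset.mul_sum]
  refine Finset.sum_congr rfl fun q _ => ?_
  rw [Matrix.smul_apply, smul_eq_mul, mul_assoc]

private theorem SF_entry {g m : ℕ} (r s : Fin g × Fin m → I) :
    SF k I g m (fun X => ∏ ij : Fin g × Fin m, X ij.2 (r ij) (s ij)) := by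
  refine ⟨Matrix.of fun p q => if p = r ∧ q = s then 1 else 0, fun X => ?_⟩
  unfold dot
  rw [Finset.sum_eq_single r, Finset.sum_eq_single s]
  · simp only [Matrix.of_apply, and_self, if_true, one_mul]
    rfl
  · intro q _ hq
    simp only [Matrix.of_apply, hq, and_false, if_false, zero_mul]
  · intro h
    exact absurd (Finset.mem_univ _) h
  · intro p _ hp
    refine Finset.sum_eq_zero fun q _ => ?_
    simp only [Matrix.of_apply, hp, false_and, if_false, zero_mul]
  · intro h
    exact absurd (Finset.mem_univ _) h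

private theorem SF_tp (g : ℕ) : ∀ (m : ℕ) (p q : Fin g → I),
    SF k I g m (fun X => tp g (List.ofFn X).prod p q) := by
  intro m
  induction m with
  | zero =>
    intro p q
    obtain ⟨Φ, hΦ⟩ := SF_smul (k := k) (I := I) (g := g) (m := 0)
      (tp g (1 : Matrix I I k) p q) _
      (SF_entry (fun ij => ij.2.elim0) (fun ij => ij.2.elim0))
    refine ⟨Φ, fun X => ?_⟩
    rw [← hΦ X]
    show tp g (List.ofFn X).prod p q = tp g (1 : Matrix I I k) p q *
      ∏ ij : Fin g × Fin 0, X ij.2 (ij.2.elim0) (ij.2.elim0)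
    rw [List.ofFn_zero, List.prod_nil, Finset.prod_of_isEmpty, mul_one]
  | succ m ih =>
    intro p q
    choose Φ hΦ using fun r => ih r q
    have h1 : SF k I g (m + 1) (fun X => ∑ r : Fin g → I, ∑ a : Fin g × Fin m → I,
        ∑ b : Fin g × Fin m → I, Φ r a b * ∏ ij : Fin g × Fin (m + 1),
          X ij.2 (Fin.cases (motive := fun _ => I) (p ij.1) (fun j => a (ij.1, j)) ij.2)
            (Fin.cases (motive := fun _ => I) (r ij.1) (fun j => b (ij.1, j)) ij.2)) :=
      SF_sum _ _ fun r => SF_sum _ _ fun a => SF_sum _ _ fun b => SF_smul _ _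
        (SF_entry _ _)
    obtain ⟨Ψ, hΨ⟩ := h1
    refine ⟨Ψ, fun X => ?_⟩
    rw [← hΨ X]
    show tp g (List.ofFn X).prod p q = _
    rw [List.ofFn_succ, List.prod_cons, Pool.Agent.UNK.tp_mul, Matrix.mul_apply]
    refine Finset.sum_congr rfl fun r _ => ?_
    have h2 : tp g (List.ofFn fun i => X i.succ).prod r q = dot (Φ r)
        (tf fun ij : Fin g × Fin m => X ij.2.succ) := hΦ r (fun j => X j.succ)
    rw [h2]
    unfold dot
    rw [Finset.mul_sum]
    refine Finset.sum_congr rfl fun a _ => ?_
    rw [Finset.mul_sum]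
    refine Finset.sum_congr rfl fun b _ => ?_
    have h3 : ∏ ij : Fin g × Fin (m + 1),
        X ij.2 (Fin.cases (motive := fun _ => I) (p ij.1) (fun j => a (ij.1, j)) ij.2)
          (Fin.cases (motive := fun _ => I) (r ij.1) (fun j => b (ij.1, j)) ij.2) =
        (∏ i, X 0 (p i) (r i)) *
          ∏ ij : Fin g × Fin m, X ij.2.succ (a ij) (b ij) := by
      rw [Fintype.prod_prod_type, Fintype.prod_prod_type, ← Finset.prod_mul_distrib]
      refine Finset.prod_congr rfl fun i _ => ?_
      rw [Fin.prod_univ_succ]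
      rfl
    rw [h3]
    show (∏ i, X 0 (p i) (r i)) * (Φ r a b * ∏ ij : Fin g × Fin m, X ij.2.succ (a ij) (b ij)) = _
    ring

theorem prod_dot (g m : ℕ) (φ : Matrix (Fin g → I) (Fin g → I) k) :
    ∃ Φ : Matrix (Fin g × Fin m → I) (Fin g × Fin m → I) k, ∀ X : Fin m → Matrix I I k,
      dot φ (tp g (List.ofFn X).prod) = dot Φ (tf fun ij : Fin g × Fin m => X ij.2) :=
  SF_sum _ _ fun p => SF_sum _ _ fun q => SF_smul (φ p q) _ (SF_tp g m p q)

theorem dot_tp_one (Φ : Matrix I I k) : ∃ Φ' : Matrix (Fin 1 → I) (Fin 1 → I) k,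
    ∀ M : Matrix I I k, dot Φ M = dot Φ' (tp 1 M) := by
  refine ⟨Matrix.of fun f f' => Φ (f 0) (f' 0), fun M => ?_⟩
  unfold dot
  rw [← Equiv.sum_comp (Equiv.funUnique (Fin 1) I)]
  refine Finset.sum_congr rfl fun f _ => ?_
  rw [← Equiv.sum_comp (Equiv.funUnique (Fin 1) I)]
  refine Finset.sum_congr rfl fun f' _ => ?_
  show Φ (f 0) (f' 0) * M (f 0) (f' 0) = Φ (f 0) (f' 0) * ∏ i : Fin 1, M (f i) (f' i)
  rw [Fin.prod_univ_one]

end

end Pool.Agent.RKO
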