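import Pool.Agent.RKO.Defs

/-!
Project RKO (MP_e2be99_lc), module Wa.  Text: /team-store/rko_h34.md (section 2, inner claim).
Definitions in `Pool/Agent/RKO/Defs.lean` (and `UNK/Defs.lean`).

Pure lists, induction on `d`. `X` is cut into `U ++ V` so that `gg q₁ d + q₁ + 1` elements of `S` occur in `U`. If
`q₁` of them occur in `V` too this is the first case; otherwise the induction hypothesis is applied to `U` (elements
which occur only in `U`) and to `V` (elements which do not occur in `U`), and the two lists found are concatenated. If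
fewer elements of `S` occur in `X` at all, the other elements form a sorted list for trivial reasons.
-/

set_option autoImplicit false

namespace Pool.Agent.RKO

open MvPolynomial
open Pool.Agent.UNK (zar PF dot tp fc Fc)

universe u

private noncomputable def wa_p {α β : Type*} (occ : β → α → Prop) (U : List β) (S : List α) : List α := by
  classical
  exact S.filter fun s => decide (∃ l ∈ U, occ l s)

private noncomputable def wa_n {α β : Type*} (occ : β → α → Prop) (U : List β) (S : List α) : List α := by
  classical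
  exact S.filter fun s => ! (decide (∃ l ∈ U, occ l s))

private theorem wa_mem_p {α β : Type*} {occ : β → α → Prop} {U : List β} {S : List α} {s : α} :
    s ∈ wa_p occ U S ↔ s ∈ S ∧ ∃ l ∈ U, occ l s := by
  classical
  unfold wa_p
  rw [List.mem_filter, decide_eq_true_iff]

private theorem wa_mem_n {α β : Type*} {occ : β → α → Prop} {U : List β} {S : List α} {s : α} :
    s ∈ wa_n occ U S ↔ s ∈ S ∧ ∀ l ∈ U, ¬ occ l s := by
  classical
  unfold wa_n
  rw [List.mem_filter, Bool.not_eq_true', decide_eq_false_iff_not]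
  push Not
  exact Iff.rfl

private theorem wa_len {α β : Type*} (occ : β → α → Prop) (U : List β) (S : List α) :
    S.length = (wa_p occ U S).length + (wa_n occ U S).length :=
  List.length_eq_length_filter_add _

private theorem wa_nd_p {α β : Type*} (occ : β → α → Prop) (U : List β) {S : List α} (hS : S.Nodup) :
    (wa_p occ U S).Nodup := hS.filter _

private theorem wa_nd_n {α β : Type*} (occ : β → α → Prop) (U : List β) {S : List α} (hS : S.Nodup) :
    (wa_n occ U S).Nodup := hS.filter _

private theorem wa_step {α β : Type*} {occ : β → α → Prop} {U : List β} {l : β} {S : List α} (hS : S.Nodup)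
    (hl : ∀ s ∈ S, ∀ s' ∈ S, occ l s → occ l s' → s = s') :
    (wa_p occ (U ++ [l]) S).length ≤ (wa_p occ U S).length + 1 := by
  classical
  have h1 : (S.filter fun s => decide (occ l s)).length ≤ 1 := by
    rw [← List.toFinset_card_of_nodup (hS.filter _), Finset.card_le_one]
    intro a ha b hb
    rw [List.mem_toFinset, List.mem_filter, decide_eq_true_iff] at ha hb
    exact hl a ha.1 b hb.1 ha.2 hb.2
  have h2 : ∀ T : List α, (wa_p occ (U ++ [l]) T).length ≤
      (wa_p occ U T).length + (T.filter fun s => decide (occ l s)).length := by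
    intro T
    induction T with
    | nil => simp [wa_p]
    | cons a T ih =>
      unfold wa_p at ih ⊢
      rw [List.filter_cons, List.filter_cons, List.filter_cons]
      by_cases ha : ∃ l' ∈ U, occ l' a
      · have hb : ∃ l' ∈ U ++ [l], occ l' a := by
          obtain ⟨l', h3, h4⟩ := ha
          exact ⟨l', List.mem_append_left _ h3, h4⟩
        rw [if_pos (decide_eq_true hb), if_pos (decide_eq_true ha)]
        split_ifs
        · simp only [List.length_cons]
          omega
        · simp only [List.length_cons]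
          omega
      · by_cases hc : occ l a
        · rw [if_pos (decide_eq_true hc)]
          split_ifs <;> simp only [List.length_cons] <;> omega
        · have hb : ¬ ∃ l' ∈ U ++ [l], occ l' a := by
            rintro ⟨l', h3, h4⟩
            rw [List.mem_append, List.mem_singleton] at h3
            rcases h3 with h3 | h3
            · exact ha ⟨l', h3, h4⟩
            · exact hc (h3 ▸ h4)
          have e1 : decide (∃ l' ∈ U ++ [l], occ l' a) ≠ true := fun h => hb (of_decide_eq_true h)
          have e2 : decide (∃ l' ∈ U, occ l' a) ≠ true := fun h => ha (of_decide_eq_true h)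
          have e3 : decide (occ l a) ≠ true := fun h => hc (of_decide_eq_true h)
          rw [if_neg e1, if_neg e2, if_neg e3]
          exact ih
  have := h2 S
  omega

private theorem wa_cut {α β : Type*} {occ : β → α → Prop} {S : List α} (hS : S.Nodup) (h : ℕ) (X : List β)
    (hind : ∀ l ∈ X, ∀ s ∈ S, ∀ s' ∈ S, occ l s → occ l s' → s = s') (hX : h ≤ (wa_p occ X S).length) :
    ∃ U V : List β, X = U ++ V ∧ (wa_p occ U S).length = h := by
  induction X using List.reverseRecOn with
  | nil =>
    have h0 : (wa_p occ ([] : List β) S).length = 0 := by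
      rw [List.length_eq_zero_iff, List.eq_nil_iff_forall_not_mem]
      intro s hs
      obtain ⟨l, hl, _⟩ := (wa_mem_p.1 hs).2
      simp at hl
    exact ⟨[], [], rfl, by omega⟩
  | append_singleton Y l ih =>
    by_cases he : (wa_p occ (Y ++ [l]) S).length = h
    · exact ⟨Y ++ [l], [], by simp, he⟩
    · have h1 := wa_step (U := Y) hS (hind l (by simp))
      obtain ⟨U, V, e1, e2⟩ := ih (fun l' hl' => hind l' (List.mem_append_left _ hl')) (by omega)
      exact ⟨U, V ++ [l], by rw [e1, List.append_assoc], e2⟩

private theorem wa_gg (q₁ d : ℕ) : 2 ^ (d + 1) ≤ gg q₁ d + 2 := by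
  induction d with
  | zero => simp [gg]
  | succ d ih =>
    rw [pow_succ, gg]
    omega

private theorem wa_sub {α : Type*} {a b : α} {r₁ r₂ : List α} (h : List.Sublist [a, b] (r₁ ++ r₂)) :
    List.Sublist [a, b] r₁ ∨ List.Sublist [a, b] r₂ ∨ (a ∈ r₁ ∧ b ∈ r₂) := by
  obtain ⟨l₁, l₂, h1, h2, h3⟩ := List.sublist_append_iff.1 h
  match l₁, h1, h2 with
  | [], h1, _ =>
    rw [List.nil_append] at h1
    exact Or.inr (Or.inl (h1 ▸ h3))
  | [x], h1, h2 =>
    rw [List.singleton_append, List.cons.injEq] at h1
    refine Or.inr (Or.inr ⟨?_, ?_⟩)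
    · rw [h1.1]
      exact h2.subset (by simp)
    · rw [← h1.2] at h3
      exact h3.subset (by simp)
  | [x, y], h1, h2 =>
    have h4 : x = a ∧ y = b := by
      simp only [List.cons_append, List.nil_append, List.cons.injEq] at h1
      exact ⟨h1.1.symm, h1.2.1.symm⟩
    rw [h4.1, h4.2] at h2
    exact Or.inl h2
  | x :: y :: z :: l, h1, _ =>
    simp at h1

theorem wr_in {α β : Type*} (occ : β → α → Prop) (q₁ d : ℕ) (X : List β) (S : List α)
    (hS : S.Nodup)
    (hind : ∀ l ∈ X, ∀ s ∈ S, ∀ s' ∈ S, occ l s → occ l s' → s = s')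
    (hlen : gg q₁ d ≤ S.length) :
    (∃ (X₁ U V X₂ : List β) (SA : List α), X = X₁ ++ U ++ V ++ X₂ ∧ SA.Nodup ∧
      (∀ s ∈ SA, s ∈ S) ∧ q₁ ≤ SA.length ∧
      ∀ s ∈ SA, (∀ l ∈ X₁, ¬ occ l s) ∧ (∀ l ∈ X₂, ¬ occ l s) ∧ (∃ l ∈ U, occ l s) ∧
        ∃ l ∈ V, occ l s) ∨
    ∃ ss : List α, ss.Nodup ∧ (∀ s ∈ ss, s ∈ S) ∧ 2 ^ d ≤ ss.length ∧ Srt occ ss X := by
  induction d generalizing X S with
  | zero =>
    right
    have h1 : 0 < S.length := by
      rw [gg] at hlen
      omega
    refine ⟨[S[0]], List.nodup_singleton _, ?_, by simp, ?_⟩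
    · intro s hs
      rw [List.mem_singleton] at hs
      rw [hs]
      exact List.getElem_mem h1
    · unfold Srt
      refine List.pairwise_of_forall fun l l' s s' _ _ h2 => ?_
      have := h2.length_le
      simp at this
  | succ d ih =>
    rw [gg] at hlen
    by_cases hX : gg q₁ d + q₁ + 1 ≤ (wa_p occ X S).length
    · obtain ⟨U, V, rfl, hU⟩ := wa_cut hS _ X hind hX
      have hR := wa_len occ U S
      have hA := wa_len occ V (wa_p occ U S)
      by_cases hq : q₁ ≤ (wa_p occ V (wa_p occ U S)).length
      · left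
        refine ⟨[], U, V, [], wa_p occ V (wa_p occ U S), by simp, wa_nd_p _ _ (wa_nd_p _ _ hS),
          fun s hs => (wa_mem_p.1 (wa_mem_p.1 hs).1).1, hq, fun s hs => ⟨by simp, by simp,
          (wa_mem_p.1 (wa_mem_p.1 hs).1).2, (wa_mem_p.1 hs).2⟩⟩
      · have indU : ∀ l ∈ U, ∀ s ∈ wa_n occ V (wa_p occ U S), ∀ s' ∈ wa_n occ V (wa_p occ U S),
            occ l s → occ l s' → s = s' := fun l hl s hs s' hs' =>
          hind l (List.mem_append_left _ hl) s (wa_mem_p.1 (wa_mem_n.1 hs).1).1 s'
            (wa_mem_p.1 (wa_mem_n.1 hs').1).1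
        have indV : ∀ l ∈ V, ∀ s ∈ wa_n occ U S, ∀ s' ∈ wa_n occ U S,
            occ l s → occ l s' → s = s' := fun l hl s hs s' hs' =>
          hind l (List.mem_append_right _ hl) s (wa_mem_n.1 hs).1 s' (wa_mem_n.1 hs').1
        rcases ih U (wa_n occ V (wa_p occ U S)) (wa_nd_n _ _ (wa_nd_p _ _ hS)) indU (by omega) with h1 | h1
        · left
          obtain ⟨X₁, U', V', X₂, SA, rfl, a1, a2, a3, a4⟩ := h1
          refine ⟨X₁, U', V', X₂ ++ V, SA, by simp only [List.append_assoc], a1,
            fun s hs => (wa_mem_p.1 (wa_mem_n.1 (a2 s hs)).1).1, a3, fun s hs => ⟨(a4 s hs).1, ?_,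
              (a4 s hs).2.2.1, (a4 s hs).2.2.2⟩⟩
          intro l hl
          rw [List.mem_append] at hl
          rcases hl with hl | hl
          · exact (a4 s hs).2.1 l hl
          · exact (wa_mem_n.1 (a2 s hs)).2 l hl
        rcases ih V (wa_n occ U S) (wa_nd_n _ _ hS) indV (by omega) with h2 | h2
        · left
          obtain ⟨X₁, U', V', X₂, SA, rfl, a1, a2, a3, a4⟩ := h2
          refine ⟨U ++ X₁, U', V', X₂, SA, by simp only [List.append_assoc], a1,
            fun s hs => (wa_mem_n.1 (a2 s hs)).1, a3, fun s hs => ⟨?_, (a4 s hs).2.1,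
              (a4 s hs).2.2.1, (a4 s hs).2.2.2⟩⟩
          intro l hl
          rw [List.mem_append] at hl
          rcases hl with hl | hl
          · exact (wa_mem_n.1 (a2 s hs)).2 l hl
          · exact (a4 s hs).1 l hl
        right
        obtain ⟨sL, a1, a2, a3, a4⟩ := h1
        obtain ⟨sR, b1, b2, b3, b4⟩ := h2
        have nR : ∀ s, (∃ l ∈ U, occ l s) → s ∉ sR := by
          rintro s ⟨l, hl, ho⟩ hs
          exact (wa_mem_n.1 (b2 s hs)).2 l hl ho
        have nL : ∀ s, (∃ l ∈ V, occ l s) → s ∉ sL := by
          rintro s ⟨l, hl, ho⟩ hs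
          exact (wa_mem_n.1 (a2 s hs)).2 l hl ho
        refine ⟨sL ++ sR, ?_, ?_, ?_, ?_⟩
        · rw [List.nodup_append']
          refine ⟨a1, b1, fun s hs hs' => ?_⟩
          exact nR s (wa_mem_p.1 (wa_mem_n.1 (a2 s hs)).1).2 hs'
        · intro s hs
          rw [List.mem_append] at hs
          rcases hs with hs | hs
          · exact (wa_mem_p.1 (wa_mem_n.1 (a2 s hs)).1).1
          · exact (wa_mem_n.1 (b2 s hs)).1
        · rw [List.length_append, pow_succ]
          omega
        · unfold Srt at a4 b4 ⊢
          rw [List.pairwise_append]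
          refine ⟨a4.imp_of_mem ?_, b4.imp_of_mem ?_, ?_⟩
          · intro l l' hl hl' hp s s' ho ho' hsub
            rcases wa_sub hsub with h3 | h3 | h3
            · exact hp s s' ho ho' h3
            · exact nR s ⟨l, hl, ho⟩ (h3.subset (by simp))
            · exact nR s ⟨l, hl, ho⟩ h3.2
          · intro l l' hl hl' hp s s' ho ho' hsub
            rcases wa_sub hsub with h3 | h3 | h3
            · exact nL s ⟨l, hl, ho⟩ (h3.subset (by simp))
            · exact hp s s' ho ho' h3
            · exact nL s' ⟨l', hl', ho'⟩ h3.1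
          · intro l hl l' hl' s s' ho ho' hsub
            rcases wa_sub hsub with h3 | h3 | h3
            · exact nL s' ⟨l', hl', ho'⟩ (h3.subset (by simp))
            · exact nR s ⟨l, hl, ho⟩ (h3.subset (by simp))
            · exact nR s ⟨l, hl, ho⟩ h3.2
    · right
      have h1 := wa_len occ X S
      have h2 := wa_gg q₁ d
      refine ⟨wa_n occ X S, wa_nd_n _ _ hS, fun s hs => (wa_mem_n.1 hs).1, by omega, ?_⟩
      unfold Srt
      have h3 : X.Pairwise fun _ _ : β => True := List.pairwise_of_forall fun _ _ => trivial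
      refine h3.imp_of_mem ?_
      intro l l' hl _ _ s s' ho _ hsub
      exact (wa_mem_n.1 (hsub.subset (by simp : s ∈ [s', s]))).2 l hl ho

end Pool.Agent.RKO
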